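import Mathlib

set_option autoImplicit false
set_option linter.unusedSectionVars false
set_option linter.unusedVariables false
set_option linter.style.haveILetI false

namespace Pool.Agent.Lib.MP_16ef92_ag.LC

open Polynomial TensorProduct

noncomputable section

open Pointwise in
theorem c1a_span_pow {T ι : Type} [CommRing T] (Y : ι → T) (n : ℕ) :
    Ideal.span (Set.range Y) ^ n =
      Ideal.span (Set.range fun s : Fin n → ι => ∏ i, Y (s i)) := by
  have h : (Set.range Y) ^ n = Set.range fun s : Fin n → ι => ∏ i, Y (s i) := by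
    ext a
    rw [Set.mem_pow]
    constructor
    · rintro ⟨g, rfl⟩
      choose s hs using fun i => (g i).2
      refine ⟨s, ?_⟩
      rw [List.prod_ofFn]
      exact Finset.prod_congr rfl fun i _ => hs i
    · rintro ⟨s, rfl⟩
      exact ⟨fun i => ⟨Y (s i), s i, rfl⟩, by rw [List.prod_ofFn]⟩
  rw [← h]
  exact Submodule.span_pow _ _

theorem c1a_map_one {R W K : Type} [CommRing R] [CommRing W] [Field K] [Algebra R W] [Algebra R K]
    (A : Subalgebra R K) (c : A) :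
    Algebra.TensorProduct.map (AlgHom.id R W) A.val (1 ⊗ₜ c) = (1 ⊗ₜ (c : K)) := rfl

theorem c1a_one {R W K : Type} [CommRing R] [CommRing W] [Field K] [Algebra R W] [Algebra R K]
    (v : W ⊗[R] K) : ∃ Z : Finset K, ∀ A : Subalgebra R K,
      (∀ z ∈ Z, ∃ a ∈ A, a ≠ 0 ∧ a * z ∈ A) → ∃ c : A, c ≠ 0 ∧ ∃ v' : W ⊗[R] A,
        Algebra.TensorProduct.map (AlgHom.id R W) A.val v' = (1 ⊗ₜ (c : K)) * v := by
  classical
  induction v using TensorProduct.induction_on with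
  | zero => exact ⟨∅, fun A _ => ⟨1, one_ne_zero, 0, by simp⟩⟩
  | tmul w z =>
    refine ⟨{z}, fun A hA => ?_⟩
    obtain ⟨a, ha, h0, hz⟩ := hA z (Finset.mem_singleton_self z)
    refine ⟨⟨a, ha⟩, fun h => h0 (congrArg Subtype.val h), w ⊗ₜ ⟨a * z, hz⟩, ?_⟩
    simp [Algebra.TensorProduct.tmul_mul_tmul]
  | add x y hx hy =>
    obtain ⟨Z1, h1⟩ := hx
    obtain ⟨Z2, h2⟩ := hy
    refine ⟨Z1 ∪ Z2, fun A hA => ?_⟩
    obtain ⟨c1, hc1, v1, e1⟩ := h1 A fun z hz => hA z (Finset.mem_union_left _ hz)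
    obtain ⟨c2, hc2, v2, e2⟩ := h2 A fun z hz => hA z (Finset.mem_union_right _ hz)
    refine ⟨c1 * c2, mul_ne_zero hc1 hc2, (1 ⊗ₜ c2) * v1 + (1 ⊗ₜ c1) * v2, ?_⟩
    have e3 : ((1 : W) ⊗ₜ[R] ((c1 * c2 : A) : K)) = (1 ⊗ₜ (c1 : K)) * (1 ⊗ₜ (c2 : K)) := by
      simp [Algebra.TensorProduct.tmul_mul_tmul]
    rw [map_add, map_mul, map_mul, e1, e2, c1a_map_one, c1a_map_one, e3]
    ring

theorem c1a_fin {R W K : Type} [CommRing R] [CommRing W] [Field K] [Algebra R W] [Algebra R K]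
    (E : Finset (W ⊗[R] K)) : ∃ Z : Finset K, ∀ A : Subalgebra R K,
      (∀ z ∈ Z, ∃ a ∈ A, a ≠ 0 ∧ a * z ∈ A) → ∃ c : A, c ≠ 0 ∧ ∀ v ∈ E, ∃ v' : W ⊗[R] A,
        Algebra.TensorProduct.map (AlgHom.id R W) A.val v' = (1 ⊗ₜ (c : K)) * v := by
  classical
  induction E using Finset.induction_on with
  | empty => exact ⟨∅, fun A _ => ⟨1, one_ne_zero, by simp⟩⟩
  | insert x E _ hE =>
    obtain ⟨Z1, h1⟩ := c1a_one x
    obtain ⟨Z2, h2⟩ := hE
    refine ⟨Z1 ∪ Z2, fun A hA => ?_⟩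
    obtain ⟨c1, hc1, v1, e1⟩ := h1 A fun z hz => hA z (Finset.mem_union_left _ hz)
    obtain ⟨c2, hc2, e2⟩ := h2 A fun z hz => hA z (Finset.mem_union_right _ hz)
    have e3 : ((1 : W) ⊗ₜ[R] ((c1 * c2 : A) : K)) = (1 ⊗ₜ (c1 : K)) * (1 ⊗ₜ (c2 : K)) := by
      simp [Algebra.TensorProduct.tmul_mul_tmul]
    refine ⟨c1 * c2, mul_ne_zero hc1 hc2, fun v hv => ?_⟩
    rcases Finset.mem_insert.1 hv with rfl | hv
    · refine ⟨(1 ⊗ₜ c2) * v1, ?_⟩
      rw [map_mul, e1, c1a_map_one, e3]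
      ring
    · obtain ⟨v2, e2⟩ := e2 v hv
      refine ⟨(1 ⊗ₜ c1) * v2, ?_⟩
      rw [map_mul, e2, c1a_map_one, e3]
      ring

theorem c1a_inj {R W K : Type} [CommRing R] [CommRing W] [Field K] [Algebra R W] [Algebra R K]
    [Module.Flat R W] (A : Subalgebra R K) :
    Function.Injective (Algebra.TensorProduct.map (AlgHom.id R W) A.val) :=
  Module.Flat.lTensor_preserves_injective_linearMap (M := W) A.val.toLinearMap
    Subtype.val_injective

/-- Descent of a divisor relation to a subring of the field. -/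
theorem desc_data {R W K : Type} [CommRing R] [CommRing W] [Field K] [Algebra R W] [Algebra R K]
    [Module.Flat R W] {n : ℕ} (hn : n ≠ 0) (f : W ⊗[R] K) (I : Ideal (W ⊗[R] K)) (hI : I.FG)
    (h : I ^ n = Ideal.span {f}) : ∃ Z : Finset K, ∀ A : Subalgebra R K,
      (∀ z ∈ Z, ∃ a ∈ A, a ≠ 0 ∧ a * z ∈ A) →
      ∃ (c a : A) (f' : W ⊗[R] A) (J : Ideal (W ⊗[R] A)), c ≠ 0 ∧ a ≠ 0 ∧
        Algebra.TensorProduct.map (AlgHom.id R W) A.val f' = (1 ⊗ₜ (c : K)) * f ∧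
        (1 ⊗ₜ a) * f' ∈ J ^ n ∧ ∀ y ∈ J ^ n, f' ∣ (1 ⊗ₜ a) * y := by
  classical
  obtain ⟨r, Y, hY⟩ := Submodule.fg_iff_exists_fin_generating_family.1 hI
  have hY' : I = Ideal.span (Set.range Y) := hY.symm
  rw [hY', c1a_span_pow] at h
  have hf : f ∈ Ideal.span (Set.range fun s : Fin n → Fin r => ∏ i, Y (s i)) := by
    rw [h]
    exact Ideal.mem_span_singleton_self f
  obtain ⟨cu, hcu⟩ := Ideal.mem_span_range_iff_exists_fun.1 hf
  have hd : ∀ s : Fin n → Fin r, ∃ d, d * f = ∏ i, Y (s i) := fun s =>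
    Ideal.mem_span_singleton'.1 (by
      rw [← h]
      exact Ideal.subset_span ⟨s, rfl⟩)
  choose du hdu using hd
  obtain ⟨Z, hZ⟩ := c1a_fin
    (insert f (Finset.univ.image Y ∪ (Finset.univ.image cu ∪ Finset.univ.image du)))
  refine ⟨Z, fun A hA => ?_⟩
  obtain ⟨c, hc, hE⟩ := hZ A hA
  obtain ⟨f', hf'⟩ := hE f (Finset.mem_insert_self _ _)
  choose Y' hY1 using fun i => hE (Y i) (by simp)
  choose cu' hcu1 using fun s => hE (cu s) (by simp)
  choose du' hdu1 using fun s => hE (du s) (by simp)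
  obtain ⟨m, rfl⟩ := Nat.exists_eq_succ_of_ne_zero hn
  set e := Algebra.TensorProduct.map (AlgHom.id R W) A.val with he
  have hinj : Function.Injective e := c1a_inj A
  set t : W ⊗[R] K := 1 ⊗ₜ (c : K) with ht
  set t' : W ⊗[R] A := 1 ⊗ₜ c with ht'
  have het : e t' = t := rfl
  have hpow : ((1 : W) ⊗ₜ[R] (c ^ (m + 2) : A)) = t' ^ (m + 2) := by
    rw [ht', Algebra.TensorProduct.tmul_pow, one_pow]
  have hprod : ∀ s : Fin (m + 1) → Fin r,
      e (∏ i, Y' (s i)) = t ^ (m + 1) * ∏ i, Y (s i) := by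
    intro s
    rw [map_prod, Finset.prod_congr rfl fun i _ => hY1 (s i), Finset.prod_mul_distrib]
    simp
  refine ⟨c, c ^ (m + 2), f', Ideal.span (Set.range Y'), hc, pow_ne_zero _ hc, hf', ?_, ?_⟩
  · rw [c1a_span_pow, hpow]
    refine Ideal.mem_span_range_iff_exists_fun.2 ⟨fun s => t' * cu' s, hinj ?_⟩
    rw [map_sum, map_mul, map_pow, het, hf', ← hcu, Finset.mul_sum, Finset.mul_sum]
    refine Finset.sum_congr rfl fun s _ => ?_
    rw [map_mul, map_mul, het, hcu1, hprod]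
    ring
  · intro y hy
    rw [c1a_span_pow] at hy
    obtain ⟨b, rfl⟩ := Ideal.mem_span_range_iff_exists_fun.1 hy
    rw [hpow, Finset.mul_sum]
    refine Finset.dvd_sum fun s _ => ⟨b s * t' ^ (2 * m + 1) * du' s, hinj ?_⟩
    simp only [map_mul, map_pow, het, hf', hdu1, hprod, ← hdu s]
    ring

end

end Pool.Agent.Lib.MP_16ef92_ag.LC
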