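import Mathlib

set_option autoImplicit false
set_option linter.unusedSectionVars false
set_option linter.unusedVariables false
set_option linter.style.haveILetI false

namespace Pool.Agent.Lib.MP_16ef92_ag.LC

open PowerSeries

noncomputable section

variable {A S T : Type} [CommRing A] [CommRing S] [CommRing T]

/-- The ideal quotient `(f : J)`. -/
def col (f : S) (J : Ideal S) : Ideal S where
  carrier := {z | ∀ y ∈ J, f ∣ z * y}
  add_mem' ha hb y hy := by rw [add_mul]; exact dvd_add (ha y hy) (hb y hy)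
  zero_mem' y _ := by rw [zero_mul]; exact dvd_zero f
  smul_mem' r z hz y hy := by rw [smul_eq_mul, mul_assoc]; exact (hz y hy).mul_left r

theorem mem_col {f z : S} {J : Ideal S} : z ∈ col f J ↔ ∀ y ∈ J, f ∣ z * y := Iff.rfl

/-- Ideal quotients commute with flat base change. -/
theorem col_flat {φ : S →+* T} (hφ : φ.Flat) {f : S} {J : Ideal S} (hJ : J.FG) {w : T}
    (h : ∀ y ∈ J, φ f ∣ w * φ y) : w ∈ (col f J).map φ := by
  classical
  letI := φ.toAlgebra
  haveI : Module.Flat S T := hφ
  obtain ⟨n, y, rfl⟩ := Submodule.fg_iff_exists_fin_generating_family.1 hJ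
  choose c hc using fun i => h (y i) (Submodule.subset_span ⟨i, rfl⟩)
  let x : (S × (Fin n → S)) →ₗ[S] T :=
    (LinearMap.toSpanSingleton S T w).coprod (Fintype.linearCombination S c)
  let r : Fin n → S × (Fin n → S) := fun i => (y i, Pi.single i (-f))
  have h0 : x ∘ₗ Fintype.linearCombination S r = 0 := by
    refine LinearMap.pi_ext' fun i => LinearMap.ext_ring ?_
    have h1 : x (r i) = 0 := by
      simp only [x, r, LinearMap.coprod_apply, LinearMap.toSpanSingleton_apply,
        Fintype.linearCombination_apply_single, Algebra.smul_def, RingHom.algebraMap_toAlgebra,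
        map_neg]
      rw [mul_comm, hc]; ring
    simpa using h1
  obtain ⟨k, a, v, hx, ha⟩ := Module.Flat.exists_factorization_of_comp_eq_zero_of_free h0
  have hm : ∀ j, a (1, 0) j ∈ col f (Submodule.span S (Set.range y)) := fun j z hz => by
    induction hz using Submodule.span_induction with
    | mem z hz =>
      obtain ⟨i, rfl⟩ := hz
      have h1 : a (r i) = 0 := by simpa using LinearMap.congr_fun ha (Pi.single i 1)
      have h2 : r i = y i • ((1 : S), (0 : Fin n → S)) -
          f • ((0 : S), (Pi.single i 1 : Fin n → S)) := by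
        refine Prod.ext (by simp [r]) (funext fun i' => ?_)
        by_cases e : i' = i <;> simp [r, e]
      rw [h2, map_sub, map_smul, map_smul, sub_eq_zero] at h1
      refine ⟨a (0, Pi.single i 1) j, ?_⟩
      rw [mul_comm]
      exact DFunLike.congr_fun h1 j
    | zero => simp
    | add u u' _ _ hu hu' => rw [mul_add]; exact dvd_add hu hu'
    | smul s u _ hu => rw [smul_eq_mul, mul_left_comm]; exact hu.mul_left s
  have hw : w = v (a (1, 0)) := by
    have h1 := LinearMap.congr_fun hx (1, 0)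
    simpa [x] using h1
  rw [hw, ← Finsupp.univ_sum_single (a (1, 0)), map_sum]
  refine Ideal.sum_mem _ fun j _ => ?_
  rw [← Finsupp.smul_single_one, map_smul, Algebra.smul_def]
  exact Ideal.mul_mem_right _ _ (Ideal.mem_map_of_mem φ (hm j))

theorem cola_ind {j : A →+* S} {φ : S →+* A⟦X⟧} (hj : φ.comp j = C) {I : Ideal S} {G : A⟦X⟧}
    (h2 : ∀ z ∈ I, G ∣ φ z) {H : A⟦X⟧} (h1 : H ∈ I.map φ) : ∀ r : A⟦X⟧,
    ∃ z ∈ I, ∃ b b' : A⟦X⟧, φ z = G * b ∧ r * H = G * b' ∧ constantCoeff b = constantCoeff b' := by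
  induction h1 using Submodule.span_induction with
  | mem H hH =>
    obtain ⟨z, hz, rfl⟩ := hH
    obtain ⟨b, hb⟩ := h2 z hz
    intro r
    refine ⟨j (constantCoeff r) * z, I.mul_mem_left _ hz, C (constantCoeff r) * b, r * b, ?_, ?_, ?_⟩
    · rw [map_mul, hb, ← hj, RingHom.comp_apply]; ring
    · rw [hb]; ring
    · simp
  | zero => exact fun r => ⟨0, zero_mem _, 0, 0, by simp, by simp, rfl⟩
  | add u u' _ _ hu hu' =>
    intro r
    obtain ⟨z, hz, b, b', e1, e2, e3⟩ := hu r
    obtain ⟨z₁, hz₁, b₁, b₁', f1, f2, f3⟩ := hu' r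
    exact ⟨z + z₁, add_mem hz hz₁, b + b₁, b' + b₁', by rw [map_add, e1, f1, mul_add],
      by rw [mul_add, e2, f2, mul_add], by rw [map_add, map_add, e3, f3]⟩
  | smul s u _ hu =>
    intro r
    rw [smul_eq_mul, ← mul_assoc]
    exact hu (r * s)

/-- An element of an extended ideal agrees with an element of the ideal up to a series with
constant term one. -/
theorem exists_gen {j : A →+* S} {φ : S →+* A⟦X⟧} (hj : φ.comp j = C) {I : Ideal S} {G : A⟦X⟧}
    [IsDomain A] (hG : G ≠ 0) (h1 : G ∈ I.map φ) (h2 : ∀ z ∈ I, G ∣ φ z) :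
    ∃ z ∈ I, ∃ b : A⟦X⟧, constantCoeff b = 1 ∧ φ z = G * b := by
  obtain ⟨z, hz, b, b', e1, e2, e3⟩ := cola_ind hj h2 h1 1
  have e4 : b' = 1 := mul_left_cancel₀ hG (by rw [← e2, one_mul, mul_one])
  exact ⟨z, hz, b, by rw [e3, e4, map_one], e1⟩

theorem col_one {j : A →+* S} {φ : S →+* A⟦X⟧} (hj : φ.comp j = C) (hφ : φ.Flat) {f x : S}
    (h : φ f ∣ φ x) : ∃ t : S, constantCoeff (φ t) = 1 ∧ f ∣ t * x := by
  have h1 : (1 : A⟦X⟧) ∈ (col f (Ideal.span {x})).map φ :=
    col_flat hφ (Submodule.fg_span_singleton x) fun y hy => by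
      obtain ⟨s, rfl⟩ := Ideal.mem_span_singleton'.1 hy
      rw [one_mul, map_mul]
      exact h.mul_left _
  obtain ⟨z, hz, b, b', e1, e2, e3⟩ := cola_ind hj (G := 1) (fun _ _ => one_dvd _) h1 1
  refine ⟨z, ?_, hz x (Ideal.mem_span_singleton_self x)⟩
  rw [e1, one_mul, e3, ← one_mul b', ← e2, one_mul, map_one]

end

end Pool.Agent.Lib.MP_16ef92_ag.LC
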