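import Mathlib
import Pool.Agent.Lib.MP_16ef92_ag.FA.PO
import Pool.Agent.Lib.MP_16ef92_ag.LC.ColA

set_option autoImplicit false
set_option linter.unusedSectionVars false
set_option linter.unusedVariables false
set_option linter.style.haveILetI false

namespace Pool.Agent.Lib.MP_16ef92_ag.LC

open PowerSeries

noncomputable section

variable {A S T : Type} [CommRing A] [CommRing S] [CommRing T]

theorem flat_coe [IsNoetherianRing A] :
    (Polynomial.coeToPowerSeries.ringHom : Polynomial A →+* A⟦X⟧).Flat := by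
  have h1 : (algebraMap (MvPolynomial Unit A) (MvPowerSeries Unit A)).Flat :=
    RingHom.flat_algebraMap_iff.2
      (Module.Flat.of_linearEquiv (MvPowerSeries.toAdicCompletionAlgEquiv Unit A).toLinearEquiv)
  have h2 := (RingHom.Flat.of_bijective
    (f := (MvPolynomial.uniqueAlgEquiv A Unit).symm.toRingEquiv.toRingHom)
    (MvPolynomial.uniqueAlgEquiv A Unit).symm.bijective).comp h1
  refine (congrArg RingHom.Flat ?_).mp h2
  refine Polynomial.ringHom_ext (fun a => ?_) ?_
  · simp [MvPolynomial.uniqueAlgEquiv, PowerSeries.C, MvPowerSeries.algebraMap_apply']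
  · simp [MvPolynomial.uniqueAlgEquiv, PowerSeries.X, MvPowerSeries.algebraMap_apply']

/-- The expansion along a section. -/
theorem exists_phi [IsNoetherianRing A] {h : Polynomial A →+* S} (hh : h.Etale) {σ : S →+* A}
    (hσ : σ.comp h = Polynomial.evalRingHom 0) : ∃ φ : S →+* A⟦X⟧, φ.Flat ∧
      φ.comp h = Polynomial.coeToPowerSeries.ringHom ∧ ∀ s, constantCoeff (φ s) = σ s := by
  have hk : ∀ x : A⟦X⟧, Ideal.Quotient.mk (Ideal.span {X}) (C (constantCoeff x)) =
      Ideal.Quotient.mk (Ideal.span {X}) x := fun x =>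
    Ideal.Quotient.eq.2 (Ideal.mem_span_singleton.2 (X_dvd_iff.2 (by simp)))
  obtain ⟨φ, h1, h2⟩ : ∃ φ : S →+* A⟦X⟧, φ.comp h = Polynomial.coeToPowerSeries.ringHom ∧
      ∀ s, constantCoeff (φ s) = σ s := by
    let := h.toAlgebra
    let : Algebra (Polynomial A) A⟦X⟧ := Polynomial.coeToPowerSeries.ringHom.toAlgebra
    have : Algebra.Etale (Polynomial A) S := hh
    obtain ⟨g, hg⟩ := Algebra.FormallySmooth.exists_mkₐ_comp_eq_of_isAdicComplete
      (R := Polynomial A) (A := S) (I := (Ideal.span {X} : Ideal A⟦X⟧))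
      { (Ideal.Quotient.mk (Ideal.span {X})).comp ((C : A →+* A⟦X⟧).comp σ) with
        commutes' := fun p => by
          change Ideal.Quotient.mk _ (C (σ (h p))) = Ideal.Quotient.mk _ (p : A⟦X⟧)
          rw [← hk p, ← RingHom.comp_apply σ, hσ, Polynomial.constantCoeff_coe,
            Polynomial.coeff_zero_eq_eval_zero, Polynomial.coe_evalRingHom] }
    refine ⟨g.toRingHom, RingHom.ext fun p => g.commutes p, fun s => ?_⟩
    have h3 : Ideal.Quotient.mk (Ideal.span {X}) (g s) = Ideal.Quotient.mk _ (C (σ s)) :=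
      AlgHom.congr_fun hg s
    have h4 := X_dvd_iff.1 (Ideal.mem_span_singleton.1 (Ideal.Quotient.eq.1 h3))
    rwa [map_sub, constantCoeff_C, sub_eq_zero] at h4
  refine ⟨φ, ?_, h1, h2⟩
  obtain ⟨S', _, i, j, po⟩ := FA.exists_po h (Polynomial.coeToPowerSeries.ringHom (R := A))
  obtain ⟨w, w1, w2⟩ := po.ex _ φ (RingHom.id _) h1
  have h3 : w.Etale := FA.etale_of_comp (po.symm.etale hh) (w2 ▸ FA.etale_id)
  rw [← w1]
  exact (po.of_stable RingHom.Flat.respectsIso RingHom.Flat.isStableUnderBaseChange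
    flat_coe).comp (RingHom.Etale.iff_flat_and_formallyUnramified.1 h3).1

end

end Pool.Agent.Lib.MP_16ef92_ag.LC
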