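import Mathlib

set_option autoImplicit false
set_option linter.unusedSectionVars false
set_option linter.unusedVariables false
set_option linter.style.haveILetI false

namespace Pool.Agent.Lib.MP_16ef92_ag.LC

open PowerSeries

noncomputable section

variable {A : Type} [CommRing A] [IsDomain A] (L : Type) [Field L] [Algebra A L]
  [IsFractionRing A L]

/-- The localisation at a prime as a subring of the fraction field. -/
abbrev Dp (p : Ideal A) [p.IsPrime] : Subalgebra A L :=
  Localization.subalgebra.ofField L p.primeCompl p.primeCompl_le_nonZeroDivisors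

instance dpFrac (p : Ideal A) [p.IsPrime] : IsFractionRing (Dp L p) L :=
  IsFractionRing.isFractionRing_of_isDomain_of_isLocalization p.primeCompl _ _

/-- The colon ideal `(b : c)`. -/
def kr_col (b c : A) : Ideal A where
  carrier := {x | b ∣ x * c}
  add_mem' := fun {x y} hx hy => by
    change b ∣ (x + y) * c
    rw [add_mul]
    exact dvd_add hx hy
  zero_mem' := by
    change b ∣ 0 * c
    rw [zero_mul]
    exact dvd_zero b
  smul_mem' := fun r x hx => by
    change b ∣ r * x * c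
    rw [mul_assoc]
    exact Dvd.dvd.mul_left hx r

theorem kr_mem {b c x : A} : x ∈ kr_col b c ↔ b ∣ x * c := Iff.rfl

theorem kr_le (b c t : A) : kr_col b c ≤ kr_col b (c * t) := fun x hx => by
  rw [kr_mem, ← mul_assoc]
  exact Dvd.dvd.mul_right hx t

variable {L}

theorem kr_dp {p : Ideal A} [p.IsPrime] {x : L} (hx : x ∈ Dp L p) :
    ∃ a : A, ∃ s ∉ p, x * algebraMap A L s = algebraMap A L a := by
  obtain ⟨a, s, hs, rfl⟩ := hx
  refine ⟨a, s, hs, inv_mul_cancel_right₀ ?_ _⟩
  rw [Ne, FaithfulSMul.algebraMap_eq_zero_iff]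
  rintro rfl
  exact hs p.zero_mem

theorem kr_map (p : Ideal A) [p.IsPrime] (G : A⟦X⟧) :
    map (algebraMap (Dp L p) L) (map (algebraMap A (Dp L p)) G) = map (algebraMap A L) G := by
  ext n
  rw [coeff_map, coeff_map, coeff_map, ← IsScalarTower.algebraMap_apply]

theorem kr_bot : IsPrincipalIdealRing (Dp L (⊥ : Ideal A)) := by
  have hs : Function.Surjective (algebraMap (Dp L (⊥ : Ideal A)) L) := fun x => by
    obtain ⟨a, s, hs, rfl⟩ := IsFractionRing.div_surjective (A := A) x
    exact ⟨⟨_, a, s, nonZeroDivisors.ne_zero hs, div_eq_mul_inv _ _⟩, rfl⟩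
  let e := (RingEquiv.ofBijective _ ⟨Subtype.val_injective, hs⟩).symm
  exact IsPrincipalIdealRing.of_surjective e.toRingHom e.surjective

variable [IsNoetherianRing A]

/-- Clearing the denominators of all coefficients at once. -/
theorem clear (p : Ideal A) [p.IsPrime] {b : A} {G : A⟦X⟧}
    (h : C (algebraMap A (Dp L p) b) ∣ map (algebraMap A (Dp L p)) G) :
    ∃ s ∉ p, C b ∣ C s * G := by
  obtain ⟨H, hH⟩ := h
  obtain ⟨_, ⟨s₀, hs₀, rfl⟩, hmax⟩ := set_has_maximal_iff_noetherian.2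
    (inferInstance : IsNoetherian A A) {I | ∃ s ∉ p, I = kr_col b s}
    ⟨_, 1, fun h1 => (inferInstance : p.IsPrime).ne_top ((Ideal.eq_top_iff_one p).2 h1), rfl⟩
  have key : ∀ n, ∃ q, coeff n G * s₀ = b * q := fun n => by
    obtain ⟨a, s, hs, e⟩ := kr_dp (coeff n H).2
    have h1 := congrArg (fun F => algebraMap (Dp L p) L (coeff n F)) hH
    simp only [coeff_map, coeff_C_mul, map_mul, ← IsScalarTower.algebraMap_apply] at h1
    have h2 : coeff n G * s = b * a := IsFractionRing.injective A L (by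
      rw [map_mul, map_mul, h1, mul_assoc, ← e]
      rfl)
    have h3 : kr_col b s₀ = kr_col b (s₀ * s) := (kr_le b s₀ s).eq_of_not_lt (hmax _
      ⟨_, fun h4 => ((inferInstance : p.IsPrime).mem_or_mem h4).elim hs₀ hs, rfl⟩)
    have h4 : coeff n G ∈ kr_col b (s * s₀) := kr_le b s s₀ ⟨a, h2⟩
    rw [mul_comm, ← h3] at h4
    exact h4
  choose q hq using key
  refine ⟨s₀, hs₀, PowerSeries.mk q, PowerSeries.ext fun n => ?_⟩
  rw [coeff_C_mul, coeff_C_mul, coeff_mk, ← hq, mul_comm]

variable [IsIntegrallyClosed A]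

theorem exists_pid {b c : A} (hb : b ≠ 0) (h : ¬ b ∣ c) : ∃ (p : Ideal A) (_ : p.IsPrime),
    IsPrincipalIdealRing (Localization.AtPrime p) ∧ ∀ s ∉ p, ¬ b ∣ s * c := by
  obtain ⟨_, ⟨t, ht, rfl⟩, hmax⟩ := set_has_maximal_iff_noetherian.2
    (inferInstance : IsNoetherian A A) {I | ∃ t, ¬ b ∣ c * t ∧ I = kr_col b (c * t)}
    ⟨_, 1, by rwa [mul_one], rfl⟩
  have hp : (kr_col b (c * t)).IsPrime := by
    refine ⟨fun h1 => ht ?_, fun {x y} hxy => ?_⟩
    · have h2 := (Ideal.eq_top_iff_one _).1 h1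
      rwa [kr_mem, one_mul] at h2
    · by_cases hy : y ∈ kr_col b (c * t)
      · exact Or.inr hy
      · left
        have h3 : kr_col b (c * t) = kr_col b (c * t * y) :=
          (kr_le b _ y).eq_of_not_lt (hmax _ ⟨t * y, by
            rwa [← mul_assoc, mul_comm], by rw [mul_assoc]⟩)
        rw [h3, kr_mem, mul_comm (c * t), ← mul_assoc]
        exact hxy
  refine ⟨_, hp, ?_, fun s hs h1 => hs (kr_le b c t h1)⟩
  generalize c * t = d at ht hp
  have hb' : algebraMap A (FractionRing A) b ≠ 0 := by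
    rwa [Ne, FaithfulSMul.algebraMap_eq_zero_iff]
  obtain ⟨π, hπ, u, hu, e⟩ : ∃ π ∈ kr_col b d, ∃ u ∉ kr_col b d, π * d = b * u := by
    by_contra hne
    have h1 : IsIntegral A (algebraMap A (FractionRing A) d / algebraMap A (FractionRing A) b) := by
      refine isIntegral_of_smul_mem_submodule
        (Submodule.map (Algebra.linearMap A (FractionRing A)) (kr_col b d)) (fun h2 => hb' ?_)
        ((IsNoetherian.noetherian _).map _) _ ?_
      · exact (Submodule.eq_bot_iff _).1 h2 _ ⟨b, dvd_mul_right b d, rfl⟩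
      · rintro _ ⟨y, hy, rfl⟩
        obtain ⟨v, hv⟩ := kr_mem.1 hy
        refine ⟨v, by_contra fun h3 => hne ⟨y, hy, v, h3, hv⟩, ?_⟩
        change algebraMap A _ v = _ * algebraMap A _ y
        rw [div_mul_eq_mul_div, eq_div_iff hb', ← map_mul, ← map_mul, mul_comm d, hv, mul_comm]
    obtain ⟨a, ha⟩ := IsIntegrallyClosed.isIntegral_iff.1 h1
    rw [eq_div_iff hb', ← map_mul] at ha
    exact ht ⟨a, by rw [← IsFractionRing.injective A _ ha, mul_comm]⟩
  have h4 := (tfae_of_isNoetherianRing_of_isLocalRing_of_isDomain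
    (Localization.AtPrime (kr_col b d))).out 4 0
  refine h4.1 ⟨algebraMap A _ π, ?_⟩
  rw [← Localization.AtPrime.map_eq_maximalIdeal]
  refine le_antisymm (Ideal.map_le_iff_le_comap.2 fun y hy => ?_)
    ((Ideal.span_singleton_le_iff_mem _).2 (Ideal.mem_map_of_mem _ hπ))
  obtain ⟨v, hv⟩ := kr_mem.1 hy
  have h5 : y * u = π * v := mul_left_cancel₀ hb (by linear_combination π * hv - y * e)
  have h6 := IsLocalization.map_units (Localization.AtPrime (kr_col b d))
    (⟨u, hu⟩ : (kr_col b d).primeCompl)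
  refine Ideal.mem_span_singleton.2 (h6.dvd_mul_right.1 ⟨algebraMap A _ v, ?_⟩)
  rw [← map_mul, ← map_mul, h5]

/-- A normal noetherian domain is the intersection of its principal localisations. -/
theorem mem_of_pid (x : L)
    (h : ∀ (p : Ideal A) [p.IsPrime], IsPrincipalIdealRing (Dp L p) → x ∈ Dp L p) :
    x ∈ (algebraMap A L).range := by
  obtain ⟨c, b, hb, rfl⟩ := IsFractionRing.div_surjective (A := A) x
  have hb0 := nonZeroDivisors.ne_zero hb
  have hb' : algebraMap A L b ≠ 0 := by rwa [Ne, FaithfulSMul.algebraMap_eq_zero_iff]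
  by_cases hbc : b ∣ c
  · obtain ⟨a, rfl⟩ := hbc
    exact ⟨a, by rw [map_mul, mul_div_cancel_left₀ _ hb']⟩
  · obtain ⟨p, _, h1, h2⟩ := exists_pid hb0 hbc
    let e := IsLocalization.algEquiv p.primeCompl (Localization.AtPrime p) (Dp L p)
    obtain ⟨a, s, hs, h3⟩ := kr_dp (h p
      (IsPrincipalIdealRing.of_surjective e.toRingEquiv.toRingHom e.surjective))
    rw [div_mul_eq_mul_div, div_eq_iff hb', ← map_mul, ← map_mul] at h3
    exact absurd ⟨a, by rw [mul_comm, IsFractionRing.injective A L h3, mul_comm]⟩ (h2 s hs)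

theorem ps_desc (G : L⟦X⟧) (h : ∀ (p : Ideal A) [p.IsPrime], IsPrincipalIdealRing (Dp L p) →
    ∃ G' : (Dp L p)⟦X⟧, map (algebraMap (Dp L p) L) G' = G) :
    ∃ G₀ : A⟦X⟧, map (algebraMap A L) G₀ = G := by
  have key : ∀ n, ∃ a, algebraMap A L a = coeff n G := fun n => mem_of_pid _ fun p _ hp => by
    obtain ⟨G', rfl⟩ := h p hp
    rw [coeff_map]
    exact (coeff n G').2
  choose q hq using key
  exact ⟨PowerSeries.mk q, PowerSeries.ext fun n => by rw [coeff_map, coeff_mk, hq]⟩

variable (L) in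
theorem ps_dvd {G w : A⟦X⟧} (hG : G ≠ 0)
    (h : ∀ (p : Ideal A) [p.IsPrime], IsPrincipalIdealRing (Dp L p) →
      map (algebraMap A (Dp L p)) G ∣ map (algebraMap A (Dp L p)) w) : G ∣ w := by
  have hi := PowerSeries.map_injective (algebraMap A L) (IsFractionRing.injective A L)
  have hG' : map (algebraMap A L) G ≠ 0 := fun h0 => hG (hi (h0.trans (map_zero _).symm))
  have key : ∀ (p : Ideal A) [p.IsPrime], IsPrincipalIdealRing (Dp L p) → ∃ Q : (Dp L p)⟦X⟧,
      map (algebraMap A L) w = map (algebraMap A L) G * map (algebraMap (Dp L p) L) Q :=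
    fun p _ hp => by
      obtain ⟨Q, hQ⟩ := h p hp
      exact ⟨Q, by rw [← kr_map p w, hQ, map_mul, kr_map]⟩
  obtain ⟨Q, hQ⟩ := key ⊥ kr_bot
  obtain ⟨G₀, h0⟩ := ps_desc (A := A) (map (algebraMap (Dp L (⊥ : Ideal A)) L) Q) fun p _ hp =>
    (key p hp).imp fun Q' h1 => mul_left_cancel₀ hG' (h1.symm.trans hQ)
  exact ⟨G₀, hi (by rw [map_mul, h0, hQ])⟩

theorem ps_pow_dvd {G w : A⟦X⟧} {n : ℕ} (hG : G ≠ 0) (hn : n ≠ 0) (h : G ^ n ∣ w ^ n) :
    G ∣ w := by
  refine ps_dvd (FractionRing A) hG fun p _ hp => ?_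
  refine (UniqueFactorizationMonoid.pow_dvd_pow_iff_dvd hn).1 ?_
  rw [← map_pow, ← map_pow]
  exact map_dvd _ h

end

end Pool.Agent.Lib.MP_16ef92_ag.LC
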