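import Mathlib

set_option autoImplicit false
set_option linter.unusedSectionVars false
set_option linter.unusedVariables false
set_option linter.style.haveILetI false

namespace Pool.Agent.Lib.MP_16ef92_ag.LC

open PowerSeries

noncomputable section

/-- Roots of power series with constant term one. -/
theorem ps_root {D : Type} [CommRing D] {n : ℕ} (hn : IsUnit (n : D)) (u : D⟦X⟧)
    (hu : constantCoeff u = 1) : ∃ w : D⟦X⟧, constantCoeff w = 1 ∧ w ^ n = u := by
  rcases Nat.eq_zero_or_pos n with rfl | hpos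
  · have h0 : (0 : D) = 1 := isUnit_zero_iff.1 (by simpa using hn)
    have : Subsingleton D := subsingleton_of_zero_eq_one h0
    exact ⟨1, Subsingleton.elim _ _, PowerSeries.ext fun _ => Subsingleton.elim _ _⟩
  · have hH : HenselianRing D⟦X⟧ (Ideal.span {X}) := IsAdicComplete.henselianRing _ _
    obtain ⟨w, hw, hw1⟩ := hH.is_henselian (Polynomial.X ^ n - Polynomial.C u)
      (Polynomial.monic_X_pow_sub_C u hpos.ne') 1
      (by
        rw [Ideal.mem_span_singleton, X_dvd_iff]
        simp [hu])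
      (by
        have e : (Polynomial.derivative (Polynomial.X ^ n - Polynomial.C u)).eval 1
            = C (n : D) := by
          simp [Polynomial.derivative_X_pow]
        rw [e]
        exact (hn.map C).map _)
    refine ⟨w, ?_, ?_⟩
    · rw [Ideal.mem_span_singleton, X_dvd_iff, map_sub, map_one] at hw1
      exact sub_eq_zero.1 hw1
    · have h2 := hw.eq_zero
      simp only [Polynomial.eval_sub, Polynomial.eval_pow, Polynomial.eval_X,
        Polynomial.eval_C] at h2
      exact sub_eq_zero.1 h2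

theorem ufa_const {L : Type} [Field L] {n : ℕ} (hn : (n : L) ≠ 0) {v : L⟦X⟧} {c : L}
    (hc : c ≠ 0) (e : v ^ n = C c) : ∃ γ : L, γ ^ n = c ∧ v = C γ := by
  have h1 : constantCoeff v ^ n = c := by
    have h := congrArg constantCoeff e
    simpa using h
  refine ⟨constantCoeff v, h1, ?_⟩
  have hn0 : n ≠ 0 := by
    rintro rfl
    simp at hn
  have hγ : constantCoeff v ≠ 0 := by
    intro h
    rw [h, zero_pow hn0] at h1
    exact hc h1.symm
  have h2 := geom_sum₂_mul v (C (constantCoeff v)) n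
  rw [e, ← map_pow, h1, sub_self] at h2
  rcases mul_eq_zero.1 h2 with h | h
  · have h3 := congrArg constantCoeff h
    simp only [map_sum, map_mul, map_pow, constantCoeff_C, map_zero] at h3
    rw [geom_sum₂_self] at h3
    exact absurd h3 (mul_ne_zero hn (pow_ne_zero _ hγ))
  · exact sub_eq_zero.1 h

/-- A quotient of power series whose `n`-th power is constant is constant. -/
theorem ps_const {L : Type} [Field L] {n : ℕ} (hn : (n : L) ≠ 0) {G h : L⟦X⟧} {c : L}
    (hh : h ≠ 0) (e : G ^ n = C c * h ^ n) : ∃ γ : L, γ ^ n = c ∧ G = C γ * h := by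
  have hn0 : n ≠ 0 := by
    rintro rfl
    simp at hn
  by_cases hc : c = 0
  · subst hc
    rw [map_zero, zero_mul] at e
    refine ⟨0, zero_pow hn0, ?_⟩
    rw [map_zero, zero_mul]
    exact pow_eq_zero_iff hn0 |>.1 e
  have hC : (C c : L⟦X⟧) ≠ 0 := fun h0 => hc (by simpa using congrArg constantCoeff h0)
  rcases ValuationRing.dvd_total h G with ⟨v, rfl⟩ | ⟨v, rfl⟩
  · have h1 : v ^ n = C c := by
      apply mul_left_cancel₀ (pow_ne_zero n hh)
      rw [← mul_pow, e, mul_comm]
    obtain ⟨γ, h2, rfl⟩ := ufa_const hn hc h1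
    exact ⟨γ, h2, mul_comm _ _⟩
  · have hG : G ≠ 0 := left_ne_zero_of_mul hh
    have h0 : C c * v ^ n = 1 := by
      apply mul_left_cancel₀ (pow_ne_zero n hG)
      rw [mul_one, mul_left_comm, ← mul_pow, ← e]
    have h1 : v ^ n = C c⁻¹ := by
      apply mul_left_cancel₀ hC
      rw [h0, ← map_mul, mul_inv_cancel₀ hc, map_one]
    obtain ⟨γ, h2, rfl⟩ := ufa_const hn (inv_ne_zero hc) h1
    have hγ : γ ≠ 0 := by
      rintro rfl
      rw [zero_pow hn0] at h2
      exact inv_ne_zero hc h2.symm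
    refine ⟨γ⁻¹, by rw [inv_pow, h2, inv_inv], ?_⟩
    rw [mul_left_comm, ← map_mul, inv_mul_cancel₀ hγ, map_one, mul_one]

/-- The order at a prime that does not divide `a`. -/
theorem ord_of_pow {T : Type} [CommRing T] [IsDomain T] [UniqueFactorizationMonoid T] {n : ℕ}
    (hn : n ≠ 0) {F a q : T} (hF : F ≠ 0) (ha : a ≠ 0) (s : Set T)
    (h1 : a * F ∈ Ideal.span s ^ n) (h2 : ∀ y ∈ Ideal.span s ^ n, F ∣ a * y) (hq : Prime q)
    (hqa : ¬ q ∣ a) :
    ∃ (m : ℕ), ∃ y ∈ s, emultiplicity q y = m ∧ emultiplicity q F = (n * m : ℕ) := by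
  classical
  have hex : ∃ m : ℕ, ∃ y ∈ s, ¬ q ^ (m + 1) ∣ y := by
    by_contra hno
    have h0 : Ideal.span s = ⊥ := by
      rw [Ideal.span_eq_bot]
      intro y hy
      by_contra y0
      obtain ⟨m, hm⟩ := FiniteMultiplicity.of_prime_left hq y0
      exact hno ⟨m, y, hy, hm⟩
    rw [h0, ← Ideal.zero_eq_bot, zero_pow hn, Ideal.zero_eq_bot, Ideal.mem_bot] at h1
    exact mul_ne_zero ha hF h1
  obtain ⟨y, hy, hy1⟩ := Nat.find_spec hex
  have hall : ∀ z ∈ s, q ^ Nat.find hex ∣ z := by
    intro z hz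
    rcases Nat.eq_zero_or_eq_succ_pred (Nat.find hex) with h | h
    · rw [h, pow_zero]
      exact one_dvd _
    · by_contra hd
      refine Nat.find_min hex (m := (Nat.find hex).pred) (by omega) ⟨z, hz, ?_⟩
      rw [h] at hd
      exact hd
  generalize Nat.find hex = m at hy1 hall
  have e1 : emultiplicity q y = m := emultiplicity_eq_coe.2 ⟨hall y hy, hy1⟩
  refine ⟨m, y, hy, e1, emultiplicity_eq_coe.2 ⟨?_, fun hd => ?_⟩⟩
  · have h3 : Ideal.span s ≤ Ideal.span {q ^ m} :=
      Ideal.span_le.2 fun z hz => Ideal.mem_span_singleton.2 (hall z hz)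
    have h4 := Ideal.pow_right_mono h3 n h1
    rw [Ideal.span_singleton_pow, Ideal.mem_span_singleton, ← pow_mul, mul_comm m n] at h4
    exact hq.pow_dvd_of_dvd_mul_left _ hqa h4
  · have h3 := hd.trans (h2 _ (Ideal.pow_mem_pow (Ideal.subset_span hy) n))
    have h4 := hq.pow_dvd_of_dvd_mul_left _ hqa h3
    have h5 : emultiplicity q (y ^ n) = (n * m : ℕ) := by
      rw [emultiplicity_pow hq, e1]
      push_cast
      rfl
    exact (emultiplicity_eq_coe.1 h5).2 h4

end

end Pool.Agent.Lib.MP_16ef92_ag.LC
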