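import Mathlib
import Pool.Agent.Lib.MP_16ef92_ag.LC.UfA

set_option autoImplicit false
set_option linter.unusedSectionVars false
set_option linter.unusedVariables false
set_option linter.style.haveILetI false

namespace Pool.Agent.Lib.MP_16ef92_ag.LC

open PowerSeries

noncomputable section

variable {D : Type} [CommRing D] [IsDomain D] [IsPrincipalIdealRing D]

theorem uf_C_dvd (π : D) (G : D⟦X⟧) :
    C π ∣ G ↔ map (Ideal.Quotient.mk (Ideal.span {π})) G = 0 := by
  constructor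
  · rintro ⟨H, rfl⟩
    rw [map_mul, map_C, Ideal.Quotient.eq_zero_iff_mem.2 (Ideal.mem_span_singleton_self π),
      map_zero, zero_mul]
  · intro h
    have h1 : ∀ k, ∃ c, coeff k G = π * c := by
      intro k
      have h2 := congrArg (coeff k) h
      rw [coeff_map, map_zero, Ideal.Quotient.eq_zero_iff_mem, Ideal.mem_span_singleton] at h2
      exact h2
    choose c hc using h1
    refine ⟨mk c, ?_⟩
    ext k
    rw [coeff_C_mul, coeff_mk, hc]

theorem uf_C_ne {a : D} (ha : a ≠ 0) : (C a : D⟦X⟧) ≠ 0 := by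
  intro h
  have h1 := congrArg constantCoeff h
  rw [constantCoeff_C, map_zero] at h1
  exact ha h1

theorem prime_C {π : D} (h : Prime π) : Prime (C π : D⟦X⟧) := by
  haveI : (Ideal.span {π}).IsPrime := (Ideal.span_singleton_prime h.ne_zero).2 h
  refine ⟨uf_C_ne h.ne_zero, fun hu => h.not_isUnit ?_, fun x y hxy => ?_⟩
  · have h1 := isUnit_constantCoeff _ hu
    rwa [constantCoeff_C] at h1
  · rw [uf_C_dvd, map_mul, mul_eq_zero] at hxy
    rw [uf_C_dvd, uf_C_dvd]
    exact hxy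

theorem prime_const {q : D⟦X⟧} (hq : Prime q) {a : D} (ha : a ≠ 0) (h : q ∣ C a) :
    ∃ π : D, Prime π ∧ Associated q (C π) := by
  induction a using UniqueFactorizationMonoid.induction_on_prime with
  | h₁ => exact absurd rfl ha
  | h₂ u hu => exact absurd (isUnit_of_dvd_unit h (hu.map C)) hq.not_isUnit
  | h₃ b p hb hp ih =>
    rw [map_mul] at h
    rcases hq.dvd_or_dvd h with h1 | h1
    · exact ⟨p, hp, hq.associated_of_dvd (prime_C hp) h1⟩
    · exact ih hb h1

theorem uf_split {n : ℕ} (hn : n ≠ 0) (F : D⟦X⟧) : F ≠ 0 →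
    (∀ q : D⟦X⟧, Prime q → (∀ π : D, Prime π → ¬ Associated q (C π)) →
      ∃ m : ℕ, emultiplicity q F = (n * m : ℕ)) →
    ∃ (c : D) (u h : D⟦X⟧), c ≠ 0 ∧ IsUnit u ∧ F = C c * u * h ^ n := by
  induction F using (wellFounded_dvdNotUnit (α := D⟦X⟧)).induction with
  | _ F ih =>
    intro hF H
    by_cases hu : IsUnit F
    · exact ⟨1, F, 1, one_ne_zero, hu, by simp⟩
    obtain ⟨q, hqi, hqF⟩ := WfDvdMonoid.exists_irreducible_factor hu hF
    have hq : Prime q := UniqueFactorizationMonoid.irreducible_iff_prime.1 hqi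
    by_cases hc : ∃ π : D, Prime π ∧ Associated q (C π)
    · obtain ⟨π, hπ, ha⟩ := hc
      obtain ⟨F', rfl⟩ := ha.symm.dvd.trans hqF
      have hF' : F' ≠ 0 := right_ne_zero_of_mul hF
      obtain ⟨c, u, h, hc0, hu', e⟩ := ih F' ⟨hF', C π, (prime_C hπ).not_isUnit, mul_comm _ _⟩ hF'
        (fun r hr hr' => by
          obtain ⟨m, hm⟩ := H r hr hr'
          have h0 : emultiplicity r (C π : D⟦X⟧) = 0 := emultiplicity_eq_zero.2 fun hd =>
            hr' π hπ (hr.associated_of_dvd (prime_C hπ) hd)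
          rw [emultiplicity_mul hr, h0, zero_add] at hm
          exact ⟨m, hm⟩)
      refine ⟨π * c, u, h, mul_ne_zero hπ.ne_zero hc0, hu', ?_⟩
      rw [e, map_mul]
      ring
    · obtain ⟨m, hm⟩ := H q hq (fun π hπ ha => hc ⟨π, hπ, ha⟩)
      have hm0 : m ≠ 0 := by
        rintro rfl
        rw [mul_zero, Nat.cast_zero, emultiplicity_eq_zero] at hm
        exact hm hqF
      have hd : q ^ n ∣ F := by
        apply pow_dvd_of_le_emultiplicity
        rw [hm]
        exact_mod_cast Nat.le_mul_of_pos_right n (Nat.pos_of_ne_zero hm0)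
      obtain ⟨F', rfl⟩ := hd
      have hF' : F' ≠ 0 := right_ne_zero_of_mul hF
      have hnu : ¬ IsUnit (q ^ n) := fun h => hq.not_isUnit ((isUnit_pow_iff hn).1 h)
      obtain ⟨c, u, h, hc0, hu', e⟩ := ih F' ⟨hF', q ^ n, hnu, mul_comm _ _⟩ hF'
        (fun r hr hr' => by
          obtain ⟨k, hk⟩ := H r hr hr'
          rw [emultiplicity_mul hr, emultiplicity_pow hr,
            (FiniteMultiplicity.of_prime_left hr hq.ne_zero).emultiplicity_eq_multiplicity,
            (FiniteMultiplicity.of_prime_left hr hF').emultiplicity_eq_multiplicity] at hk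
          have hk' : n * multiplicity r q + multiplicity r F' = n * k := by exact_mod_cast hk
          refine ⟨k - multiplicity r q, ?_⟩
          rw [(FiniteMultiplicity.of_prime_left hr hF').emultiplicity_eq_multiplicity,
            Nat.mul_sub]
          congr 1
          omega)
      refine ⟨c, u, q * h, hc0, hu', ?_⟩
      rw [e, mul_pow]
      ring

theorem uf_ne {n : ℕ} (hn : IsUnit (n : D)) : n ≠ 0 := by
  rintro rfl
  rw [Nat.cast_zero] at hn
  exact not_isUnit_zero hn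

/-- Up to a constant the series is an `n`-th power. -/
theorem fac {n : ℕ} (hn : IsUnit (n : D)) {F : D⟦X⟧} (hF : F ≠ 0) {a : D} (ha : a ≠ 0)
    (J : Ideal D⟦X⟧) (h1 : C a * F ∈ J ^ n) (h2 : ∀ y ∈ J ^ n, F ∣ C a * y) :
    ∃ (c : D) (h : D⟦X⟧), c ≠ 0 ∧ F = C c * h ^ n := by
  have hn0 := uf_ne hn
  obtain ⟨c, u, h, hc, hu, e⟩ := uf_split hn0 F hF (fun q hq hq' => by
    have hqa : ¬ q ∣ C a := fun hd => by
      obtain ⟨π, hπ, hπ'⟩ := prime_const hq ha hd
      exact hq' π hπ hπ'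
    obtain ⟨m, -, -, -, hm⟩ := ord_of_pow hn0 hF (uf_C_ne ha) (J : Set D⟦X⟧)
      (by rwa [Ideal.span_eq]) (by rwa [Ideal.span_eq]) hq hqa
    exact ⟨m, hm⟩)
  obtain ⟨v, hv⟩ := isUnit_constantCoeff _ hu
  obtain ⟨w, -, hw⟩ := ps_root hn (C (↑v⁻¹ : D) * u) (by
    rw [map_mul, constantCoeff_C, ← hv, Units.inv_mul])
  refine ⟨c * v, w * h, mul_ne_zero hc v.ne_zero, ?_⟩
  have h3 : (C (v : D) : D⟦X⟧) * C (↑v⁻¹ : D) = 1 := by
    rw [← map_mul, Units.mul_inv, map_one]
  rw [e, mul_pow, hw, map_mul]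
  linear_combination (-(C c * u * h ^ n)) * h3

/-- A root over the fraction field has coefficients in the ring. -/
theorem root_mem {L : Type} [Field L] [Algebra D L] [IsFractionRing D L] {n : ℕ}
    (hn : IsUnit (n : D)) {F : D⟦X⟧} (hF : F ≠ 0) {a : D} (ha : a ≠ 0)
    (J : Ideal D⟦X⟧) (h1 : C a * F ∈ J ^ n) (h2 : ∀ y ∈ J ^ n, F ∣ C a * y) {G : L⟦X⟧}
    (hG : G ^ n = map (algebraMap D L) F) : ∃ G' : D⟦X⟧, map (algebraMap D L) G' = G := by
  have hn0 := uf_ne hn
  obtain ⟨c, h, hc, e⟩ := fac hn hF ha J h1 h2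
  have hh : h ≠ 0 := by
    rintro rfl
    rw [zero_pow hn0, mul_zero] at e
    exact hF e
  have hinj : Function.Injective (algebraMap D L) := IsFractionRing.injective D L
  have hh' : map (algebraMap D L) h ≠ 0 := fun h0 =>
    hh (map_injective (algebraMap D L) hinj (by rw [h0, map_zero]))
  have hnL : (n : L) ≠ 0 := by
    have h4 := (hn.map (algebraMap D L)).ne_zero
    rwa [map_natCast] at h4
  rw [e, map_mul, map_pow, map_C] at hG
  obtain ⟨γ, hγ, hG'⟩ := ps_const hnL hh' hG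
  have hint : IsIntegral D γ := by
    apply IsIntegral.of_pow (Nat.pos_of_ne_zero hn0)
    rw [hγ]
    exact isIntegral_algebraMap
  obtain ⟨g, hg⟩ := IsIntegrallyClosed.isIntegral_iff.1 hint
  exact ⟨C g * h, by rw [map_mul, map_C, hg, hG']⟩

end

end Pool.Agent.Lib.MP_16ef92_ag.LC
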