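import Mathlib
import Pool.Agent.Lib.MP_16ef92_ag.LC.Kr
import Pool.Agent.Lib.MP_16ef92_ag.LC.Uf
import Pool.Agent.Lib.MP_16ef92_ag.LC.Col

set_option autoImplicit false
set_option linter.unusedSectionVars false
set_option linter.unusedVariables false
set_option linter.style.haveILetI false

namespace Pool.Agent.Lib.MP_16ef92_ag.LC

open PowerSeries

noncomputable section

variable {A S : Type} [CommRing A] [IsDomain A] [IsNoetherianRing A] [IsIntegrallyClosed A]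
  [CommRing S] {j : A →+* S} {φ : S →+* A⟦X⟧} {n : ℕ} {f : S} {J : Ideal S} {a : A}

theorem corea_map {R R' : Type} [CommRing R] [CommRing R'] (g : R →+* R') {F b : R} {I : Ideal R}
    {n : ℕ} (h1 : b * F ∈ I ^ n) (h2 : ∀ y ∈ I ^ n, F ∣ b * y) :
    g b * g F ∈ I.map g ^ n ∧ ∀ y ∈ I.map g ^ n, g F ∣ g b * y := by
  rw [← Ideal.map_pow, ← map_mul]
  refine ⟨Ideal.mem_map_of_mem g h1, fun y hy => ?_⟩
  induction hy using Submodule.span_induction with
  | mem x hx =>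
    obtain ⟨z, hz, rfl⟩ := hx
    rw [← map_mul]
    exact map_dvd g (h2 z hz)
  | zero => simp
  | add x y _ _ hx hy => rw [mul_add]; exact dvd_add hx hy
  | smul r x _ hx => rw [smul_eq_mul, mul_left_comm]; exact hx.mul_left r

theorem corea_alg {D : Type} [CommRing D] [Algebra A D] (hD : Function.Injective (algebraMap A D))
    (hn : IsUnit (n : A)) {F : A⟦X⟧} (hF : F ≠ 0) (ha : a ≠ 0) {I : Ideal A⟦X⟧}
    (h1 : C a * F ∈ I ^ n) (h2 : ∀ y ∈ I ^ n, F ∣ C a * y) :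
    IsUnit (n : D) ∧ map (algebraMap A D) F ≠ 0 ∧ algebraMap A D a ≠ 0 ∧
      C (algebraMap A D a) * map (algebraMap A D) F ∈ I.map (map (algebraMap A D)) ^ n ∧
      ∀ y ∈ I.map (map (algebraMap A D)) ^ n,
        map (algebraMap A D) F ∣ C (algebraMap A D a) * y := by
  have h := corea_map (map (algebraMap A D)) h1 h2
  rw [map_C] at h
  exact ⟨by simpa using hn.map (algebraMap A D),
    (map_ne_zero_iff _ (map_injective _ hD)).2 hF, (map_ne_zero_iff _ hD).2 ha, h⟩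

/-- Up to a constant the expansion is an `n`-th power. -/
theorem core_root (hn : IsUnit (n : A)) {F : A⟦X⟧} (hF : F ≠ 0) (ha : a ≠ 0) (I : Ideal A⟦X⟧)
    (h1 : C a * F ∈ I ^ n) (h2 : ∀ y ∈ I ^ n, F ∣ C a * y) :
    ∃ (c : A) (G : A⟦X⟧), c ≠ 0 ∧ G ^ n = C c * F := by
  obtain ⟨k, rfl⟩ : ∃ k, n = k + 1 := Nat.exists_eq_succ_of_ne_zero fun e => by simp [e] at hn
  have hL := IsFractionRing.injective A (FractionRing A)
  obtain ⟨e1, e2, e3, e4, e5⟩ := corea_alg hL hn hF ha h1 h2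
  obtain ⟨c, h, hc, e⟩ := fac e1 e2 e3 _ e4 e5
  obtain ⟨c1, c2, hc2, rfl⟩ := IsFractionRing.div_surjective (A := A) c
  have hc2' : c2 ≠ 0 := nonZeroDivisors.ne_zero hc2
  have hc1 : c1 ≠ 0 := fun e => hc (by simp [e])
  have h0 : c1 ^ k * c2 ≠ 0 := mul_ne_zero (pow_ne_zero _ hc1) hc2'
  have hG : (C (algebraMap A (FractionRing A) c1) * h) ^ (k + 1) =
      map (algebraMap A (FractionRing A)) (C (c1 ^ k * c2) * F) := by
    rw [map_mul, map_C, e, ← mul_assoc, ← map_mul, mul_pow, ← map_pow, map_mul (algebraMap A _),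
      map_pow (algebraMap A _), mul_assoc, mul_div_cancel₀ _ ((map_ne_zero_iff _ hL).2 hc2'),
      pow_succ]
  have hF' : C (c1 ^ k * c2) * F ≠ 0 :=
    mul_ne_zero ((map_ne_zero_iff _ C_injective).2 h0) hF
  have h1' : C (a * (c1 ^ k * c2)) * (C (c1 ^ k * c2) * F) ∈ I ^ (k + 1) := by
    rw [show C (a * (c1 ^ k * c2)) * (C (c1 ^ k * c2) * F) =
      C (c1 ^ k * c2) * C (c1 ^ k * c2) * (C a * F) by rw [map_mul C a]; ring]
    exact Ideal.mul_mem_left _ _ h1
  have h2' : ∀ y ∈ I ^ (k + 1), C (c1 ^ k * c2) * F ∣ C (a * (c1 ^ k * c2)) * y := fun y hy => by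
    rw [map_mul C a, mul_comm (C a), mul_assoc]
    exact mul_dvd_mul_left _ (h2 y hy)
  obtain ⟨G, hG0⟩ := ps_desc (A := A) (C (algebraMap A (FractionRing A) c1) * h) fun p _ hp => by
    have hD : Function.Injective (algebraMap A (Dp (FractionRing A) p)) :=
      Function.Injective.of_comp (f := algebraMap (Dp (FractionRing A) p) (FractionRing A)) hL
    obtain ⟨f1, f2, f3, f4, f5⟩ := corea_alg hD hn hF' (mul_ne_zero ha h0) h1' h2'
    exact root_mem f1 f2 f3 _ f4 f5 hG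
  exact ⟨_, G, h0, map_injective _ hL (by rw [map_pow, hG0, hG])⟩

/-- A test element for a horizontal prime. -/
theorem core_hor (hn : n ≠ 0) (hj : φ.comp j = C) (hf : φ f ≠ 0) (ha : a ≠ 0)
    (h1 : j a * f ∈ J ^ n) (h2 : ∀ y ∈ J ^ n, f ∣ j a * y) {G : A⟦X⟧} (hG : G ^ n = φ f)
    {T : Type} [CommRing T] [IsDomain T] [UniqueFactorizationMonoid T] (ψ : A⟦X⟧ →+* T)
    (hψ : Function.Injective ψ) {q : T} (hq : Prime q) (hqa : ¬ q ∣ ψ (C a)) :
    ∃ y : S, G ^ (n - 1) ∣ φ y ∧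
      emultiplicity q (ψ (φ y)) = (n - 1 : ℕ) * emultiplicity q (ψ G) := by
  have hja : φ (j a) = C a := RingHom.congr_fun hj a
  obtain ⟨e1, e2⟩ := corea_map (ψ.comp φ) h1 h2
  simp only [RingHom.comp_apply, hja] at e1 e2
  obtain ⟨m, _, ⟨y, hy, rfl⟩, v1, v2⟩ := ord_of_pow hn ((map_ne_zero_iff _ hψ).2 hf)
    ((map_ne_zero_iff _ hψ).2 ((map_ne_zero_iff _ C_injective).2 ha)) ((ψ.comp φ) '' J) e1 e2 hq hqa
  have hG0 : G ≠ 0 := fun e => hf (by rw [← hG, e, zero_pow hn])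
  have v3 : emultiplicity q (ψ G) = m := by
    rw [← hG, map_pow, emultiplicity_pow hq, Nat.cast_mul] at v2
    exact (ENat.mul_right_strictMono (by simpa using hn) (ENat.natCast_ne_top n)).injective v2
  have hd : G ∣ φ (j a * y) := by
    refine ps_pow_dvd hG0 hn ?_
    rw [hG, ← map_pow]
    refine map_dvd φ ((h2 _ (Ideal.pow_mem_pow hy n)).trans ?_)
    rw [mul_pow]
    exact mul_dvd_mul_right (dvd_pow_self _ hn) _
  refine ⟨(j a * y) ^ (n - 1), by rw [map_pow]; exact pow_dvd_pow_of_dvd hd _, ?_⟩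
  rw [RingHom.comp_apply] at v1
  rw [map_pow, map_pow, emultiplicity_pow hq, map_mul, map_mul, emultiplicity_mul hq, hja, v1, v3,
    emultiplicity_eq_zero.2 hqa, zero_add]

end

end Pool.Agent.Lib.MP_16ef92_ag.LC
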