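import Mathlib
import Pool.Agent.Lib.MP_16ef92_ag.LC.CoreA
import Pool.Agent.Lib.MP_16ef92_ag.LC.Kr
import Pool.Agent.Lib.MP_16ef92_ag.LC.Uf
import Pool.Agent.Lib.MP_16ef92_ag.LC.Col

set_option autoImplicit false
set_option linter.unusedSectionVars false
set_option linter.unusedVariables false
set_option linter.style.haveILetI false

namespace Pool.Agent.Lib.MP_16ef92_ag.LC

open PowerSeries

noncomputable section

variable {A S : Type} [CommRing A] [IsDomain A] [IsNoetherianRing A] [IsIntegrallyClosed A]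
  [CommRing S] {j : A →+* S} {φ : S →+* A⟦X⟧} {n : ℕ} {f : S} {J : Ideal S} {a : A}

theorem core_inj {L : Type} [Field L] [Algebra A L] [IsFractionRing A L] (p : Ideal A)
    [p.IsPrime] : Function.Injective (algebraMap A (Dp L p)) := fun x y e =>
  IsFractionRing.injective A L (by
    rw [IsScalarTower.algebraMap_apply A (Dp L p) L, e, ← IsScalarTower.algebraMap_apply])

/-- A test element for a vertical prime. -/
theorem core_ver (hn : n ≠ 0) (hj : φ.comp j = C) (hφ : φ.Flat) (hf : φ f ≠ 0) {G : A⟦X⟧}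
    (hG : G ^ n = φ f) {L : Type} [Field L] [Algebra A L] [IsFractionRing A L] (p : Ideal A)
    [p.IsPrime] [IsPrincipalIdealRing (Dp L p)] {π : Dp L p} (hπ : Prime π) :
    ∃ y : S, G ^ (n - 1) ∣ φ y ∧
      emultiplicity (C π) (map (algebraMap A (Dp L p)) (φ y)) =
        (n - 1 : ℕ) * emultiplicity (C π) (map (algebraMap A (Dp L p)) G) := by
  have hjc : ∀ x, φ (j x) = C x := fun x => RingHom.congr_fun hj x
  have hinj := core_inj (L := L) p
  have hm : Function.Injective (map (algebraMap A (Dp L p))) := map_injective _ hinj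
  have hG0 : G ≠ 0 := fun e => hf (by rw [← hG, e, zero_pow hn])
  have hq := prime_C hπ
  obtain ⟨⟨π0, s⟩, hs⟩ := IsLocalization.surj p.primeCompl π
  have hsu : IsUnit (algebraMap A (Dp L p) s) := IsLocalization.map_units _ s
  have hπ0 : π0 ≠ 0 := fun e => by
    simp only [e, map_zero] at hs
    exact mul_ne_zero hπ.ne_zero hsu.ne_zero hs
  have hass : Associated (C π : (Dp L p)⟦X⟧) (C (algebraMap A (Dp L p) π0)) := by
    rw [← hs, map_mul]
    exact associated_mul_unit_right _ _ (hsu.map C)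
  have hfin := FiniteMultiplicity.of_prime_left hq ((map_ne_zero_iff _ hm).2 hG0)
  obtain ⟨c, hc⟩ : ∃ c, c = multiplicity (C π) (map (algebraMap A (Dp L p)) G) := ⟨_, rfl⟩
  obtain ⟨s2, hs2, G2, e⟩ := clear (L := L) p (b := π0 ^ c) (G := G) (by
    rw [map_pow, map_pow]
    exact (hass.symm.pow_pow (n := c)).dvd.trans (hc ▸ pow_multiplicity_dvd _ _))
  have hu2 : IsUnit (map (algebraMap A (Dp L p)) (C s2)) := by
    rw [map_C]
    exact (IsLocalization.map_units (Dp L p) (⟨s2, hs2⟩ : p.primeCompl)).map C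
  have hG2 : emultiplicity (C π) (map (algebraMap A (Dp L p)) G2) = 0 := by
    refine emultiplicity_eq_zero.2 fun h => hfin.not_pow_dvd_of_multiplicity_lt
      (m := c + 1) (by omega) ?_
    rw [← hu2.dvd_mul_left, ← map_mul, e, map_mul, map_C, map_pow, map_pow, pow_succ]
    exact mul_dvd_mul (hass.pow_pow (n := c)).dvd h
  have e1 : φ (j s2 ^ n * f) = C (π0 ^ c) ^ n * G2 ^ n := by
    rw [map_mul, map_pow, hjc, ← hG, ← mul_pow, e, mul_pow]
  obtain ⟨t, ht, f', e2⟩ := col_one hj hφ (f := j (π0 ^ c) ^ n) (x := j s2 ^ n * f)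
    ⟨G2 ^ n, by rw [e1, map_pow φ, hjc]⟩
  have e3 : φ f' = φ t * G2 ^ n := by
    have h1 := congrArg φ e2
    rw [map_mul, e1, map_mul, map_pow φ, hjc] at h1
    have h2 : (C (π0 ^ c) : A⟦X⟧) ^ n ≠ 0 :=
      pow_ne_zero _ ((map_ne_zero_iff _ C_injective).2 (pow_ne_zero _ hπ0))
    exact mul_left_cancel₀ h2 (by rw [← h1]; ring)
  have e4 : φ (j (π0 ^ c) * f') = G * (φ t * C s2 * G2 ^ (n - 1)) := by
    obtain ⟨k, rfl⟩ := Nat.exists_eq_succ_of_ne_zero hn
    rw [map_mul, hjc, e3, Nat.succ_sub_one, pow_succ]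
    linear_combination (-(φ t * G2 ^ k)) * e
  have hut : IsUnit (φ t) := isUnit_iff_constantCoeff.2 (ht ▸ isUnit_one)
  refine ⟨(j (π0 ^ c) * f') ^ (n - 1), ?_, ?_⟩
  · rw [map_pow, e4]
    exact pow_dvd_pow_of_dvd (dvd_mul_right _ _) _
  · rw [map_pow, map_pow, emultiplicity_pow hq, e4, map_mul, map_mul, map_mul, map_pow,
      emultiplicity_mul hq, emultiplicity_mul hq, emultiplicity_mul hq, emultiplicity_pow hq, hG2,
      emultiplicity_of_isUnit_right hq.not_isUnit hu2,
      emultiplicity_of_isUnit_right hq.not_isUnit (hut.map _), mul_zero, add_zero, add_zero,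
      add_zero]

theorem core_dvd (hn : n ≠ 0) (hj : φ.comp j = C) (hφ : φ.Flat) (hf : φ f ≠ 0) (ha : a ≠ 0)
    (h1 : j a * f ∈ J ^ n) (h2 : ∀ y ∈ J ^ n, f ∣ j a * y) {G : A⟦X⟧} (hG : G ^ n = φ f)
    {w : A⟦X⟧} (hw : ∀ y : S, G ^ (n - 1) ∣ φ y → G ^ n ∣ w * φ y) : G ∣ w := by
  have hG0 : G ≠ 0 := fun e => hf (by rw [← hG, e, zero_pow hn])
  refine ps_dvd (FractionRing A) hG0 fun p _ hp => ?_
  have hinj := core_inj (L := FractionRing A) p
  have hm : Function.Injective (map (algebraMap A (Dp (FractionRing A) p))) :=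
    map_injective _ hinj
  have hG1 := (map_ne_zero_iff _ hm).2 hG0
  refine (UniqueFactorizationMonoid.dvd_iff_emultiplicity_le hG1).2 fun q hq => ?_
  obtain ⟨y, y1, y2⟩ : ∃ y : S, G ^ (n - 1) ∣ φ y ∧
      emultiplicity q (map (algebraMap A (Dp (FractionRing A) p)) (φ y)) =
        (n - 1 : ℕ) * emultiplicity q (map (algebraMap A (Dp (FractionRing A) p)) G) := by
    by_cases hqa : q ∣ map (algebraMap A (Dp (FractionRing A) p)) (C a)
    · rw [map_C] at hqa
      obtain ⟨π, hπ, hass⟩ := prime_const hq ((map_ne_zero_iff _ hinj).2 ha) hqa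
      simp only [← emultiplicity_eq_of_associated_left hass]
      exact core_ver hn hj hφ hf hG p hπ
    · exact core_hor hn hj hf ha h1 h2 hG _ hm hq hqa
  have h3 := emultiplicity_le_emultiplicity_of_dvd_right (a := q)
    (map_dvd (map (algebraMap A (Dp (FractionRing A) p))) (hw y y1))
  rw [map_pow, map_mul, emultiplicity_pow hq, emultiplicity_mul hq, y2] at h3
  rw [(FiniteMultiplicity.of_prime_left hq hG1).emultiplicity_eq_multiplicity] at h3 ⊢
  obtain ⟨k, rfl⟩ := Nat.exists_eq_succ_of_ne_zero hn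
  rw [Nat.succ_sub_one, Nat.cast_succ, add_mul, one_mul, add_comm, ← Nat.cast_mul] at h3
  exact (WithTop.add_le_add_iff_right (ENat.natCast_ne_top _)).1 h3

/-- Near the section `f` is an `n`-th power up to a constant and a unit. -/
theorem core [IsNoetherianRing S] (hn : IsUnit (n : A)) (hj : φ.comp j = C) (hφ : φ.Flat)
    (hf : φ f ≠ 0) (ha : a ≠ 0) (h1 : j a * f ∈ J ^ n) (h2 : ∀ y ∈ J ^ n, f ∣ j a * y) :
    ∃ (c : A) (z t u : S), c ≠ 0 ∧ constantCoeff (φ t) = 1 ∧ constantCoeff (φ u) = 1 ∧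
      j c * f * u = t * z ^ n := by
  have hjc : ∀ x, φ (j x) = C x := fun x => RingHom.congr_fun hj x
  have hn0 : n ≠ 0 := fun e => by
    rw [e, Nat.cast_zero] at hn
    exact not_isUnit_zero hn
  obtain ⟨c, G, hc, hG⟩ := core_root hn hf ha (J.map φ)
    (by
      rw [← Ideal.map_pow, ← hjc, ← map_mul]
      exact Ideal.mem_map_of_mem _ h1)
    (by
      rw [← Ideal.map_pow]
      intro y hy
      induction hy using Submodule.span_induction with
      | mem x hx =>
        obtain ⟨x, hx, rfl⟩ := hx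
        rw [← hjc, ← map_mul]
        exact map_dvd φ (h2 x hx)
      | zero => rw [mul_zero]; exact dvd_zero _
      | add x y _ _ hx hy => rw [mul_add]; exact dvd_add hx hy
      | smul r x _ hx => rw [smul_eq_mul, mul_left_comm]; exact hx.mul_left r)
  rw [← hjc, ← map_mul] at hG
  have hf1 : φ (j c * f) ≠ 0 := by
    rw [map_mul, hjc]
    exact mul_ne_zero ((map_ne_zero_iff _ C_injective).2 hc) hf
  have hG0 : G ≠ 0 := fun e => hf1 (by rw [← hG, e, zero_pow hn0])
  have hmem : ∀ y, y ∈ (Ideal.span {G ^ (n - 1)}).comap φ ↔ G ^ (n - 1) ∣ φ y := fun y => by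
    rw [Ideal.mem_comap, Ideal.mem_span_singleton]
  obtain ⟨z, -, b, hb, e⟩ := exists_gen hj
    (I := col (j c * f) ((Ideal.span {G ^ (n - 1)}).comap φ)) hG0
    (col_flat hφ (IsNoetherian.noetherian _) fun y hy => by
      rw [← hG, ← mul_pow_sub_one hn0]
      exact mul_dvd_mul_left _ ((hmem y).1 hy))
    fun z hz => core_dvd (J := J) (a := a * c) hn0 hj hφ hf1 (mul_ne_zero ha hc)
      (by
        have : j (a * c) * (j c * f) = j c * j c * (j a * f) := by rw [map_mul]; ring
        rw [this]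
        exact Ideal.mul_mem_left _ _ h1)
      (fun y hy => by
        have : j (a * c) * y = j c * (j a * y) := by rw [map_mul]; ring
        rw [this]
        exact mul_dvd_mul_left _ (h2 y hy)) hG
      fun y hy => by
        rw [hG, ← map_mul]
        exact map_dvd φ (hz y ((hmem y).2 hy))
  have e1 : φ (z ^ n) = φ (j c * f) * b ^ n := by rw [map_pow, e, mul_pow, hG]
  obtain ⟨t, ht, u, e2⟩ := col_one hj hφ (f := j c * f) (x := z ^ n) ⟨_, e1⟩
  have e3 : φ u = φ t * b ^ n := by
    have h3 := congrArg φ e2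
    rw [map_mul, e1, map_mul φ (j c * f)] at h3
    exact mul_left_cancel₀ hf1 (by rw [← h3]; ring)
  exact ⟨c, z, t, u, hc, ht, by rw [e3, map_mul, map_pow, ht, hb, one_pow, one_mul], e2.symm⟩

end

end Pool.Agent.Lib.MP_16ef92_ag.LC
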