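import Mathlib

set_option autoImplicit false
set_option linter.unusedSectionVars false
set_option linter.unusedVariables false
set_option linter.style.haveILetI false

namespace Pool.Agent.Lib.MP_16ef92_ag.LC

open Polynomial

noncomputable section

theorem nf_sep {κ K : Type} [Field κ] [Field K] [Algebra κ K] [Algebra.IsAlgebraic κ K] (p : ℕ)
    [Fact p.Prime] [CharP K p] (Y : Finset K) : ∃ (e : ℕ) (L : IntermediateField κ K),
      FiniteDimensional κ L ∧ Algebra.IsSeparable κ L ∧ ∀ y ∈ Y, y ^ p ^ e ∈ L := by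
  have : CharP (separableClosure κ K) p := (algebraMap _ K).charP Subtype.val_injective p
  have h1 : ∀ y : K, ∃ e : ℕ, y ^ p ^ e ∈ separableClosure κ K := fun y => by
    obtain ⟨e, z, hz⟩ := IsPurelyInseparable.pow_mem (separableClosure κ K) p y
    exact ⟨e, hz ▸ z.2⟩
  choose e he using h1
  have h2 : ∀ y ∈ Y, y ^ p ^ Y.sup e ∈ separableClosure κ K := fun y hy => by
    obtain ⟨d, hd⟩ := Nat.exists_eq_add_of_le (Finset.le_sup (f := e) hy)
    rw [hd, pow_add, pow_mul]
    exact pow_mem (he y) _
  have := ((Y.finite_toSet.image fun y => y ^ p ^ Y.sup e)).to_subtype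
  refine ⟨Y.sup e, IntermediateField.adjoin κ ((fun y => y ^ p ^ Y.sup e) '' Y),
    IntermediateField.finiteDimensional_adjoin fun z _ => Algebra.IsIntegral.isIntegral z,
    (le_separableClosure_iff κ K _).1 (IntermediateField.adjoin_le_iff.2 ?_),
    fun y hy => IntermediateField.subset_adjoin _ _ ⟨y, hy, rfl⟩⟩
  rintro _ ⟨y, hy, rfl⟩
  exact h2 y hy

theorem nf_core {P R K : Type} [CommRing P] [IsDomain P] [IsIntegrallyClosed P]
    [IsNoetherianRing P] [CommRing R] [Field K] [IsAlgClosed K] [Algebra P R] [Algebra R K]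
    [Algebra P K] [IsScalarTower P R K] [FaithfulSMul P K] [Algebra.IsAlgebraic P K] (p : ℕ)
    [Fact p.Prime] [CharP K p] (Y : Finset K) (h1 : ∀ r : R, IsIntegral P (algebraMap R K r))
    (h2 : ∀ M : Subring K, (∀ c : P, algebraMap P K c ∈ M) → (∀ y ∈ Y, y ∈ M) →
      ∀ r : R, algebraMap R K r ∈ M)
    (h3 : ∀ e : ℕ, ∃ T : Set K, T.Finite ∧ (∀ t ∈ T, ∃ c : P, t ^ p ^ e = algebraMap P K c) ∧
      ∀ c : P, ∃ a ∈ Algebra.adjoin R T, a ^ p ^ e = algebraMap P K c) :
    ∃ A : Subalgebra R K, Module.Finite R A ∧ IsIntegrallyClosed A ∧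
      ∀ z ∈ Y, ∃ a ∈ A, a ≠ 0 ∧ a * z ∈ A := by
  letI := FractionRing.liftAlgebra P K
  have := FractionRing.isScalarTower_liftAlgebra P K
  have : Algebra.IsAlgebraic (FractionRing P) K := Algebra.IsAlgebraic.extendScalars
    (IsFractionRing.injective P (FractionRing P))
  obtain ⟨e, L, _, _, hL⟩ := nf_sep (κ := FractionRing P) p Y
  obtain ⟨T, hT, h4, h5⟩ := h3 e
  have hq : 0 < p ^ e := pow_pos (Fact.out : p.Prime).pos e
  let M : Subfield K := L.toSubfield.comap (iterateFrobenius K p e)
  have hM : ∀ a, a ∈ M ↔ a ^ p ^ e ∈ L := fun a => Iff.rfl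
  have hP : ∀ c : P, algebraMap P K c ∈ L := fun c => by
    rw [IsScalarTower.algebraMap_apply P (FractionRing P) K]
    exact L.algebraMap_mem _
  have hPM : ∀ c : P, algebraMap P K c ∈ M := fun c => pow_mem (hP c) _
  let A : Subalgebra R K :=
    { toSubsemiring := M.toSubring.toSubsemiring ⊓ (integralClosure P K).toSubsemiring
      algebraMap_mem' := fun r => ⟨h2 M.toSubring hPM hL r, h1 r⟩ }
  have hA : ∀ a, a ∈ A ↔ a ∈ M ∧ IsIntegral P a := fun a => Iff.rfl
  refine ⟨A, ?_, ?_, fun z hz => ?_⟩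
  · obtain ⟨S, hS⟩ := (IsIntegralClosure.finite P (FractionRing P) L (integralClosure P L)).fg_top
    choose r hr using fun b : K => IsAlgClosed.exists_pow_nat_eq b hq
    let U : Set K := T ∪ (fun b : integralClosure P L => r b.1.1) '' S
    have hU : ∀ t ∈ U, t ∈ A := by
      rintro t (ht | ⟨b, -, rfl⟩)
      · obtain ⟨c, hc⟩ := h4 t ht
        exact ⟨(hM t).2 (hc ▸ hP c), IsIntegral.of_pow hq (hc ▸ isIntegral_algebraMap)⟩
      · refine ⟨(hM _).2 ((hr _).symm ▸ b.1.2), IsIntegral.of_pow hq ?_⟩
        rw [hr]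
        exact (show IsIntegral P b.1 from b.2).map (L.val.restrictScalars P)
    have h6 : ∀ b : integralClosure P L, ∃ a ∈ Algebra.adjoin R U, a ^ p ^ e = b.1.1 := fun b => by
      have hb : b ∈ Submodule.span P (S : Set (integralClosure P L)) := hS ▸ Submodule.mem_top
      induction hb using Submodule.span_induction with
      | mem b hb => exact ⟨_, Algebra.subset_adjoin (Or.inr ⟨b, hb, rfl⟩), hr _⟩
      | zero => exact ⟨0, zero_mem _, zero_pow hq.ne'⟩
      | add b b' _ _ hb hb' =>
        obtain ⟨a, ha, e1⟩ := hb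
        obtain ⟨a', ha', e2⟩ := hb'
        exact ⟨a + a', add_mem ha ha', by rw [add_pow_char_pow, e1, e2]; rfl⟩
      | smul c b _ hb =>
        obtain ⟨a, ha, e1⟩ := hb
        obtain ⟨a', ha', e2⟩ := h5 c
        exact ⟨a' * a, mul_mem (Algebra.adjoin_mono Set.subset_union_left ha') ha, by
          rw [mul_pow, e1, e2, ← Algebra.smul_def]; rfl⟩
    have h7 : A = Algebra.adjoin R U := le_antisymm (fun a ha => by
      obtain ⟨a', ha', e1⟩ := h6 ⟨⟨a ^ p ^ e, ha.1⟩, (isIntegral_algHom_iff
        (L.val.restrictScalars P) Subtype.val_injective).1 (((hA a).1 ha).2.pow _)⟩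
      exact (iterateFrobenius K p e).injective (a₁ := a') (a₂ := a) e1 ▸ ha')
      (Algebra.adjoin_le hU)
    rw [h7]
    exact Algebra.finite_adjoin_of_finite_of_isIntegral (hT.union (S.finite_toSet.image _))
      fun t ht => ((hA t).1 (hU t ht)).2.tower_top
  · refine (isIntegrallyClosed_iff (FractionRing A)).2 fun {x} hx => ?_
    let φ : FractionRing A →ₐ[A] K := IsFractionRing.liftAlgHom (g := Algebra.ofId A K)
      Subtype.val_injective
    have h6 : φ x ∈ A := by
      letI : Algebra P A := ((algebraMap R A).comp (algebraMap P R)).toAlgebra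
      have : IsScalarTower P A K := .of_algebraMap_eq fun c => IsScalarTower.algebraMap_apply P R K c
      have : Algebra.IsIntegral P A := ⟨fun a => (isIntegral_algHom_iff
        (IsScalarTower.toAlgHom P A K) Subtype.val_injective).1 a.2.2⟩
      refine ⟨?_, isIntegral_trans (A := A) _ (hx.map φ)⟩
      obtain ⟨a, b, -, rfl⟩ := IsFractionRing.div_surjective (A := A) x
      rw [map_div₀, AlgHom.commutes, AlgHom.commutes]
      exact M.div_mem a.2.1 b.2.1
    exact ⟨⟨φ x, h6⟩, φ.injective (φ.commutes _)⟩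
  · obtain ⟨c, hc, h6⟩ := (Algebra.IsAlgebraic.isAlgebraic (R := P) z).exists_integral_multiple
    refine ⟨algebraMap P K c, ⟨hPM c, isIntegral_algebraMap⟩,
      (map_ne_zero_iff _ (FaithfulSMul.algebraMap_injective P K)).2 hc,
      mul_mem (hPM c) (hL z hz), ?_⟩
    rwa [← Algebra.smul_def]

/-- Finiteness of the normalisation in a finite extension of the fraction field. -/
theorem exists_normal {k R K : Type} [Field k] [PerfectField k] [CommRing R] [Algebra k R]
    [Algebra.FiniteType k R] [Field K] [IsAlgClosed K] [Algebra R K] (p : ℕ) [Fact p.Prime]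
    [CharP K p] (halg : ∀ z : K, ∃ P : R[X], P.map (algebraMap R K) ≠ 0 ∧ aeval z P = 0)
    (Z : Finset K) : ∃ A : Subalgebra R K, Module.Finite R A ∧ IsIntegrallyClosed A ∧
      ∀ z ∈ Z, ∃ a ∈ A, a ≠ 0 ∧ a * z ∈ A := by
  classical
  letI : Algebra k K := ((algebraMap R K).comp (algebraMap k R)).toAlgebra
  have : IsScalarTower k R K := .of_algebraMap_eq fun _ => rfl
  let f := IsScalarTower.toAlgHom k R K
  have : Algebra.FiniteType k f.range := .of_surjective f.rangeRestrict f.rangeRestrict_surjective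
  obtain ⟨s, g, hg, hi⟩ := exists_integral_inj_algHom_of_fg k f.range
  choose r hr using fun i => f.rangeRestrict_surjective (g (MvPolynomial.X i))
  let g' : MvPolynomial (Fin s) k →ₐ[k] R := MvPolynomial.aeval r
  have e1 : f.rangeRestrict.comp g' = g := MvPolynomial.algHom_ext fun i => by simp [g', hr]
  letI := g'.toRingHom.toAlgebra
  letI := g.toRingHom.toAlgebra
  letI : Algebra (MvPolynomial (Fin s) k) K := (f.range.val.comp g).toRingHom.toAlgebra
  have : IsScalarTower (MvPolynomial (Fin s) k) R K := .of_algebraMap_eq fun c =>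
    (congrArg Subtype.val (DFunLike.congr_fun e1 c)).symm
  have : IsScalarTower (MvPolynomial (Fin s) k) f.range K := .of_algebraMap_eq fun _ => rfl
  have : FaithfulSMul (MvPolynomial (Fin s) k) K :=
    (faithfulSMul_iff_algebraMap_injective _ _).2 (Subtype.val_injective.comp hg)
  have : Algebra.IsIntegral (MvPolynomial (Fin s) k) f.range := ⟨hi⟩
  have : Algebra.IsAlgebraic f.range K := ⟨fun z => by
    obtain ⟨Q, h1, h2⟩ := halg z
    have h3 : (Q.map f.rangeRestrict.toRingHom).map (algebraMap f.range K) =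
        Q.map (algebraMap R K) := Polynomial.map_map _ _ _
    refine ⟨Q.map f.rangeRestrict.toRingHom, fun e => h1 (by rw [← h3, e, Polynomial.map_zero]), ?_⟩
    rw [← eval_map_algebraMap, h3, eval_map_algebraMap, h2]⟩
  have : Algebra.IsAlgebraic (MvPolynomial (Fin s) k) K := .trans _ f.range K
  have hC : ∀ c : k, algebraMap (MvPolynomial (Fin s) k) K (MvPolynomial.C c) = algebraMap k K c :=
    fun c => (f.range.val.comp g).commutes c
  obtain ⟨S, hS⟩ := (inferInstance : Algebra.FiniteType k R).out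
  obtain ⟨A, h1, h2, h3⟩ := nf_core (P := MvPolynomial (Fin s) k) (R := R) p
    (Z ∪ S.image (algebraMap R K))
    (fun r => IsIntegral.map (IsScalarTower.toAlgHom (MvPolynomial (Fin s) k) f.range K)
      (hi (f.rangeRestrict r)))
    (fun M h1 h2 r => by
      have hr : r ∈ Algebra.adjoin k (S : Set R) := hS ▸ Algebra.mem_top
      induction hr using Algebra.adjoin_induction with
      | mem x hx => exact h2 _ (Finset.mem_union_right _ (Finset.mem_image_of_mem _ hx))
      | algebraMap c => exact hC c ▸ h1 (MvPolynomial.C c)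
      | add x y _ _ hx hy => exact map_add (algebraMap R K) x y ▸ add_mem hx hy
      | mul x y _ _ hx hy => exact map_mul (algebraMap R K) x y ▸ mul_mem hx hy)
    fun e => by
      have hq : 0 < p ^ e := pow_pos (Fact.out : p.Prime).pos e
      choose t ht using fun i : Fin s => IsAlgClosed.exists_pow_nat_eq
        (algebraMap (MvPolynomial (Fin s) k) K (MvPolynomial.X i)) hq
      refine ⟨Set.range t, Set.finite_range t, by rintro _ ⟨i, rfl⟩; exact ⟨_, ht i⟩, fun c => ?_⟩
      induction c using MvPolynomial.induction_on with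
      | C c =>
        have : CharP k p := (algebraMap k K).charP (algebraMap k K).injective p
        obtain ⟨b, rfl⟩ := (bijective_iterateFrobenius k p e).2 c
        exact ⟨algebraMap k K b, Subalgebra.algebraMap_mem _ (algebraMap k R b), by
          rw [hC, iterateFrobenius_def, map_pow]⟩
      | add x y hx hy =>
        obtain ⟨a, ha, e1⟩ := hx
        obtain ⟨b, hb, e2⟩ := hy
        exact ⟨a + b, add_mem ha hb, by rw [add_pow_char_pow, e1, e2, map_add]⟩
      | mul_X x i hx =>
        obtain ⟨a, ha, e1⟩ := hx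
        exact ⟨a * t i, mul_mem ha (Algebra.subset_adjoin ⟨i, rfl⟩), by
          rw [mul_pow, e1, ht, map_mul]⟩
  exact ⟨A, h1, h2, fun z hz => h3 z (Finset.mem_union_left _ hz)⟩

end

end Pool.Agent.Lib.MP_16ef92_ag.LC
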