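import Mathlib

set_option autoImplicit false
set_option linter.unusedSectionVars false
set_option linter.unusedVariables false
set_option linter.style.haveILetI false

namespace Pool.Agent.Lib.MP_16ef92_ag.LC

open Polynomial

noncomputable section

section root

open TensorProduct

/-- Newton iteration for the equation `c * u ^ n = 1`. -/
theorem root_newton {R : Type} [CommRing R] {n : ℕ} (hn : IsUnit (n : R)) (c : R) (k : ℕ) :
    ∀ a u : R, a ^ (2 ^ k) = 0 → c * u ^ n = 1 + a → ∃ s, c * (u + a * s) ^ n = 1 := by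
  obtain ⟨m, hm⟩ := hn.exists_left_inv
  induction k with
  | zero =>
    intro a u ha h
    have h0 : a = 0 := by simpa using ha
    exact ⟨0, by rw [mul_zero, add_zero, h, h0, add_zero]⟩
  | succ k ih =>
    intro a u ha h
    obtain ⟨t, ht⟩ := sq_dvd_add_pow_sub_sub (-(m * a)) 1 n
    rw [one_pow, one_pow] at ht
    have h1 : c * (u * (1 + -(m * a))) ^ n = 1 + a ^ 2 * (m ^ 2 * t * (1 + a) - 1) := by
      rw [mul_pow, ← mul_assoc, h]
      linear_combination (1 + a) * ht - (1 + a) * a * hm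
    obtain ⟨s, hs⟩ := ih _ _ (by rw [mul_pow, ← pow_mul, ← pow_succ', ha, zero_mul]) h1
    refine ⟨a * (m ^ 2 * t * (1 + a) - 1) * s - m * u, ?_⟩
    refine Eq.trans (congrArg (fun x => c * x ^ n) ?_) hs
    ring

theorem root_uniq {R : Type} [CommRing R] {n : ℕ} (hn : IsUnit (n : R)) {c u u' : R}
    (h : c * u ^ n = 1) (h' : c * u' ^ n = 1) (hp : (u' - u) ^ 2 = 0) : u = u' := by
  obtain ⟨m, hm⟩ := hn.exists_left_inv
  rcases n with _ | n
  · have h0 : (1 : R) = 0 := by rw [← hm]; simp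
    rw [← mul_one u, ← mul_one u', h0, mul_zero, mul_zero]
  obtain ⟨t, ht⟩ := sq_dvd_add_pow_sub_sub (u' - u) u (n + 1)
  rw [hp, zero_mul, add_sub_cancel, Nat.add_sub_cancel] at ht
  have h2 : c * (u ^ n * u) = 1 := by rw [← pow_succ, h]
  linear_combination (c * m * u) * ht - (m * u) * h' + (m * u) * h +
    (u' - u) * hm + ((u' - u) * m * ((n + 1 : ℕ) : R)) * h2

variable {W T : Type} [CommRing W] [CommRing T] [Algebra W T] {ι : Type} [Fintype ι]

theorem root_repr (e : Module.Basis ι W T) {A B : Type} [CommRing A] [CommRing B] [Algebra W A]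
    [Algebra W B] (φ : A →ₐ[W] B) (z : A ⊗[W] T) (i : ι) :
    (Algebra.TensorProduct.basis B e).repr (Algebra.TensorProduct.map φ (AlgHom.id W T) z) i =
      φ ((Algebra.TensorProduct.basis A e).repr z i) := by
  induction z with
  | zero => simp
  | tmul a t => simp [Algebra.TensorProduct.basis_repr_tmul]
  | add z z' h h' => simp only [map_add, Finsupp.add_apply, h, h']

/-- The solutions of `c * u ^ n = 1` in the base changes of a finite free algebra are
represented by a finitely presented algebra. -/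
theorem root_rep (e : Module.Basis ι W T) (c : T) (n : ℕ) :
    ∃ (W' : Type) (_ : CommRing W') (_ : Algebra W W') (U : W' ⊗[W] T),
      Algebra.FinitePresentation W W' ∧ (1 ⊗ₜ c) * U ^ n = 1 ∧
      (∀ (B : Type) [CommRing B] [Algebra W B] (u : B ⊗[W] T), (1 ⊗ₜ c) * u ^ n = 1 →
        ∃ φ : W' →ₐ[W] B, Algebra.TensorProduct.map φ (AlgHom.id W T) U = u) ∧
      ∀ (B : Type) [CommRing B] [Algebra W B] (φ ψ : W' →ₐ[W] B),
        Algebra.TensorProduct.map φ (AlgHom.id W T) U =
          Algebra.TensorProduct.map ψ (AlgHom.id W T) U → φ = ψ := by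
  let A := MvPolynomial ι W
  let V : A ⊗[W] T := (Algebra.TensorProduct.basis A e).equivFun.symm MvPolynomial.X
  have hV : ∀ i, (Algebra.TensorProduct.basis A e).repr V i = MvPolynomial.X i := fun i =>
    congrFun ((Algebra.TensorProduct.basis A e).equivFun.apply_symm_apply MvPolynomial.X) i
  let r : ι → A := fun i => (Algebra.TensorProduct.basis A e).repr ((1 ⊗ₜ c) * V ^ n - 1) i
  have key : ∀ (B : Type) [CommRing B] [Algebra W B] (φ : A →ₐ[W] B),
      (1 ⊗ₜ c) * Algebra.TensorProduct.map φ (AlgHom.id W T) V ^ n = 1 ↔ ∀ i, φ (r i) = 0 := by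
    intro B _ _ φ
    have h1 : Algebra.TensorProduct.map φ (AlgHom.id W T) ((1 ⊗ₜ c) * V ^ n - 1) =
        (1 ⊗ₜ c) * Algebra.TensorProduct.map φ (AlgHom.id W T) V ^ n - 1 := by
      rw [map_sub, map_mul, map_pow, map_one, Algebra.TensorProduct.map_tmul, map_one]
      rfl
    rw [← sub_eq_zero, ← h1, (Algebra.TensorProduct.basis B e).ext_elem_iff]
    refine forall_congr' fun i => ?_
    rw [root_repr, map_zero, Finsupp.zero_apply]
  let I : Ideal A := Ideal.span (Set.range r)
  let π : A →ₐ[W] A ⧸ I := Ideal.Quotient.mkₐ W I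
  have hc : ∀ (B : Type) [CommRing B] [Algebra W B] (φ : (A ⧸ I) →ₐ[W] B) (i : ι),
      (Algebra.TensorProduct.basis B e).repr (Algebra.TensorProduct.map φ (AlgHom.id W T)
        (Algebra.TensorProduct.map π (AlgHom.id W T) V)) i = φ (π (MvPolynomial.X i)) := by
    intro B _ _ φ i
    rw [root_repr, root_repr, hV]
  refine ⟨A ⧸ I, inferInstance, inferInstance, Algebra.TensorProduct.map π (AlgHom.id W T) V,
    Algebra.FinitePresentation.quotient (Submodule.fg_span (Set.finite_range r)),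
    (key _ π).2 fun i => Ideal.Quotient.eq_zero_iff_mem.2 (Ideal.subset_span ⟨i, rfl⟩),
    fun B _ _ u hu => ?_, fun B _ _ φ ψ h => ?_⟩
  · let φ : A →ₐ[W] B := MvPolynomial.aeval fun i => (Algebra.TensorProduct.basis B e).repr u i
    have h1 : Algebra.TensorProduct.map φ (AlgHom.id W T) V = u :=
      (Algebra.TensorProduct.basis B e).ext_elem fun i => by
        rw [root_repr, hV]
        exact MvPolynomial.aeval_X _ _
    have h2 : ∀ a ∈ I, φ a = 0 := fun a ha =>
      (Ideal.span_le.2 (Set.range_subset_iff.2 ((key B φ).1 (h1 ▸ hu))) :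
        I ≤ RingHom.ker φ) ha
    refine ⟨Ideal.Quotient.liftₐ I φ h2, (Algebra.TensorProduct.basis B e).ext_elem fun i => ?_⟩
    rw [hc]
    exact MvPolynomial.aeval_X _ _
  · refine Ideal.Quotient.algHom_ext W (MvPolynomial.algHom_ext fun i => ?_)
    exact (hc B φ i).symm.trans (by rw [h, hc]; rfl)

/-- The representing algebra is etale. -/
theorem root_et (e : Module.Basis ι W T) (c : T) {n : ℕ} (hn : IsUnit (n : W)) :
    ∃ (W' : Type) (_ : CommRing W') (_ : Algebra W W') (U : W' ⊗[W] T),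
      Algebra.Etale W W' ∧ (1 ⊗ₜ c) * U ^ n = 1 ∧
      ∀ (B : Type) [CommRing B] [Algebra W B] (u : B ⊗[W] T), (1 ⊗ₜ c) * u ^ n = 1 →
        Nonempty (W' →ₐ[W] B) := by
  obtain ⟨W', _, _, U, hfp, hU, hex, huq⟩ := root_rep e c n
  refine ⟨W', _, _, U, ⟨Algebra.FormallyEtale.iff_comp_bijective.2 fun B _ _ I hI => ?_, hfp⟩, hU,
    fun B _ _ u hu => (hex B u hu).nonempty⟩
  have hsol : ∀ (B : Type) [CommRing B] [Algebra W B] (φ : W' →ₐ[W] B),
      (1 ⊗ₜ c) * Algebra.TensorProduct.map φ (AlgHom.id W T) U ^ n = 1 := by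
    intro B _ _ φ
    have h := congrArg (Algebra.TensorProduct.map φ (AlgHom.id W T)) hU
    rwa [map_mul, map_pow, map_one, Algebra.TensorProduct.map_tmul, map_one] at h
  let π := Algebra.TensorProduct.map (Ideal.Quotient.mkₐ W I) (AlgHom.id W T)
  have hπ : ∀ (φ : W' →ₐ[W] B), π (Algebra.TensorProduct.map φ (AlgHom.id W T) U) =
      Algebra.TensorProduct.map ((Ideal.Quotient.mkₐ W I).comp φ) (AlgHom.id W T) U := by
    intro φ
    generalize U = z
    induction z with
    | zero => simp only [map_zero]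
    | tmul a t => rfl
    | add z z' h h' => simp only [map_add, h, h']
  have hk : ∀ a, π a = 0 → a ^ 2 = 0 := by
    intro a ha
    have h1 : a ∈ RingHom.ker π := ha
    have h0 : RingHom.ker (Ideal.Quotient.mkₐ W I) = I := Ideal.Quotient.mkₐ_ker W I
    rw [Algebra.TensorProduct.rTensor_ker _ (Ideal.Quotient.mkₐ_surjective W I), h0] at h1
    have h2 := Ideal.pow_mem_pow h1 2
    rwa [← Ideal.map_pow, hI, Ideal.map_bot, Ideal.mem_bot] at h2
  have hnB : IsUnit (n : B ⊗[W] T) := by simpa using hn.map (algebraMap W (B ⊗[W] T))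
  refine ⟨fun φ ψ h => huq B φ ψ (root_uniq hnB (hsol B φ) (hsol B ψ) (hk _ ?_)), fun φ => ?_⟩
  · rw [map_sub, hπ, hπ, h, sub_self]
  · obtain ⟨u, hu⟩ := Algebra.TensorProduct.map_surjective (Ideal.Quotient.mkₐ W I) (AlgHom.id W T)
      (Ideal.Quotient.mkₐ_surjective W I) Function.surjective_id
      (Algebra.TensorProduct.map φ (AlgHom.id W T) U)
    have ha : π ((1 ⊗ₜ c) * u ^ n - 1) = 0 := by
      rw [map_sub, map_mul, map_pow, map_one, hu, sub_eq_zero]
      exact hsol _ φ
    obtain ⟨s, hs⟩ := root_newton hnB (1 ⊗ₜ c) 1 _ u (hk _ ha) (add_sub_cancel _ _).symm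
    obtain ⟨ψ, hψ⟩ := hex B _ hs
    refine ⟨ψ, huq _ _ _ ?_⟩
    rw [← hπ, hψ, map_add, map_mul, ha, zero_mul, add_zero, hu]

end root

/-- An element of an integral algebra that is `1` on a fibre becomes an `n`-th power of a unit
over an etale neighbourhood in the base. -/
theorem exists_root {W S L : Type} [CommRing W] [CommRing S] [Field L] {g : W →+* S}
    (hg : g.IsIntegral) (y : W →+* L) {n : ℕ} (hn : IsUnit (n : W)) {w : S}
    (hw : w - 1 ∈ (RingHom.ker y).map g) :
    ∃ (W' : Type) (_ : CommRing W') (b : W →+* W') (y' : W' →+* L), b.Etale ∧ y'.comp b = y ∧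
      ∀ (Z : Type) [CommRing Z] (i : S →+* Z) (d : W' →+* Z), i.comp g = d.comp b →
        ∃ v : Z, IsUnit v ∧ v ^ n = i w := by
  letI : Algebra W S := g.toAlgebra
  letI : Algebra W L := y.toAlgebra
  haveI : Algebra.IsIntegral W S := ⟨hg⟩
  obtain ⟨P, hP, h0, hc⟩ := Polynomial.exists_monic_aeval_eq_zero_forall_mem_of_mem_map
    (R := W) (S := S) hw
  haveI : Nontrivial W := y.domain_nontrivial
  let T := AdjoinRoot P
  obtain ⟨W', _, _, U, het, hU, hex⟩ :=
    root_et (AdjoinRoot.powerBasis' hP).basis (1 + AdjoinRoot.root P : T) hn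
  have hPy : P.map (algebraMap W L) = X ^ P.natDegree := by
    ext i
    rw [coeff_map, coeff_X_pow]
    split_ifs with hi
    · rw [hi, hP.coeff_natDegree, map_one]
    · exact hc i hi
  have hnil : ((1 : L) ⊗ₜ[W] (AdjoinRoot.root P : T)) ^ P.natDegree = 0 := by
    have h1 : aeval ((1 : L) ⊗ₜ[W] (AdjoinRoot.root P : T)) P = 0 := by
      have h := aeval_algHom_apply
        (Algebra.TensorProduct.includeRight : T →ₐ[W] TensorProduct W L T) (AdjoinRoot.root P) P
      rw [AdjoinRoot.aeval_eq, AdjoinRoot.mk_self, map_zero] at h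
      exact h
    rw [← aeval_map_algebraMap L, hPy, map_pow, aeval_X] at h1
    exact h1
  have hnL : IsUnit (n : TensorProduct W L T) := by
    simpa using hn.map (algebraMap W (TensorProduct W L T))
  obtain ⟨s, hs⟩ := root_newton hnL ((1 : L) ⊗ₜ[W] (1 + AdjoinRoot.root P : T)) P.natDegree
    ((1 : L) ⊗ₜ[W] (AdjoinRoot.root P : T)) 1
    (pow_eq_zero_of_le (Nat.lt_two_pow_self).le hnil)
    (by rw [one_pow, mul_one, TensorProduct.tmul_add]; rfl)
  obtain ⟨y'⟩ := hex L _ hs
  refine ⟨W', _, algebraMap W W', y'.toRingHom, RingHom.etale_algebraMap.2 het,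
    y'.comp_algebraMap, fun Z _ i d h => ?_⟩
  letI : Algebra W Z := (d.comp (algebraMap W W')).toAlgebra
  let d' : W' →ₐ[W] Z := ⟨d, fun _ => rfl⟩
  let i' : S →ₐ[W] Z := ⟨i, fun x => RingHom.congr_fun h x⟩
  let φ : T →ₐ[W] S := AdjoinRoot.liftAlgHom P (Algebra.ofId W S) (w - 1) h0
  have hφ : φ (1 + AdjoinRoot.root P) = w := by
    have h1 : φ (AdjoinRoot.root P) = w - 1 := AdjoinRoot.liftAlgHom_root _ _ _ _
    rw [map_add, map_one, h1, add_sub_cancel]
  let ρ := Algebra.TensorProduct.productMap d' (i'.comp φ)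
  have h1 : i w * ρ U ^ n = 1 := by
    have h2 := congrArg ρ hU
    rwa [map_mul, map_pow, map_one, Algebra.TensorProduct.productMap_apply_tmul, map_one, one_mul,
      AlgHom.comp_apply, hφ] at h2
  have hn0 : n ≠ 0 := by
    rintro rfl
    simp at hn
  have hu : IsUnit (ρ U) := (isUnit_pow_iff hn0).1 (IsUnit.of_mul_eq_one_right _ h1)
  obtain ⟨u, hu⟩ := hu
  refine ⟨(u⁻¹ : Zˣ), Units.isUnit _, ?_⟩
  rw [← hu] at h1
  rw [← one_mul (_ ^ n), ← h1, mul_assoc, ← mul_pow, Units.mul_inv, one_pow, mul_one]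

end

end Pool.Agent.Lib.MP_16ef92_ag.LC
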