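import Mathlib
import Pool.Agent.Lib.MP_16ef92_ag.FA.PO

set_option autoImplicit false
set_option linter.unusedSectionVars false
set_option linter.unusedVariables false
set_option linter.style.haveILetI false

namespace Pool.Agent.Lib.MP_16ef92_ag.LC

open Polynomial FA

noncomputable section

variable {R R' W V K L : Type} [CommRing R] [CommRing R'] [CommRing W] [CommRing V] [CommRing K]
  [Field L]

theorem po_poly (τ : R →+* R') : PO C τ (mapRingHom τ) C := by
  refine ⟨?_, fun Z _ u v e => ⟨eval₂RingHom v (u X), ?_, ?_⟩, fun Z _ w w' h1 h2 => ?_⟩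
  · ext r
    simp
  · refine Polynomial.ringHom_ext (fun r => ?_) ?_
    · have := RingHom.congr_fun e r
      simp only [RingHom.comp_apply] at this
      simp [this]
    · simp
  · ext r
    simp
  · refine Polynomial.ringHom_ext (fun r => RingHom.congr_fun h2 r) ?_
    simpa using RingHom.congr_fun h1 X

theorem seca_po {h : R[X] →+* W} {τ : R →+* K} {i : W →+* V} {j : K →+* V}
    (hP : PO (h.comp C) τ i j) : PO h (mapRingHom τ) i (eval₂RingHom j (i (h X))) := by
  have e : (eval₂RingHom j (i (h X))).comp C = j := by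
    ext r
    simp
  refine PO.cancel (po_poly τ) (by rw [e]; exact hP) ?_
  refine Polynomial.ringHom_ext (fun r => ?_) ?_
  · have := RingHom.congr_fun hP.comm r
    simp only [RingHom.comp_apply] at this
    simp [this]
  · simp

/-- The coordinate after base change. -/
theorem etale_bc {h : R[X] →+* W} (hh : h.Etale) {τ : R →+* K} {i : W →+* V} {j : K →+* V}
    (hP : PO (h.comp C) τ i j) : (eval₂RingHom j (i (h X))).Etale :=
  (seca_po hP).symm.etale hh

/-- The kernel of a section after base change. -/
theorem ker_sec {f : R →+* W} {σ : W →+* R} (hσ : σ.comp f = RingHom.id R) {τ : R →+* K}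
    {i : W →+* V} {j : K →+* V} (hP : PO f τ i j) {s : V →+* K} (hs : s.comp i = τ.comp σ)
    (hs' : s.comp j = RingHom.id K) {v : V} (hv : s v = 0) : v ∈ (RingHom.ker σ).map i := by
  have key : ∀ x : V, x - j (s x) ∈ (RingHom.ker σ).map i := by
    intro x
    refine hP.induction (p := fun x => x - j (s x) ∈ (RingHom.ker σ).map i) ?_ ?_ ?_ x
    · simp
    · intro w k
      have h1 : s (i w) = τ (σ w) := RingHom.congr_fun hs w
      have h2 : s (j k) = k := RingHom.congr_fun hs' k
      have h3 : j (τ (σ w)) = i (f (σ w)) := (RingHom.congr_fun hP.comm (σ w)).symm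
      have h4 : σ (f (σ w)) = σ w := RingHom.congr_fun hσ (σ w)
      have h5 : i w * j k - j (s (i w * j k)) = i (w - f (σ w)) * j k := by
        rw [map_mul, h1, h2, map_mul, h3, map_sub]
        ring
      rw [h5]
      refine Ideal.mul_mem_right _ _ (Ideal.mem_map_of_mem _ ?_)
      rw [RingHom.mem_ker, map_sub, h4, sub_self]
    · intro x y hx hy
      have : x + y - j (s (x + y)) = (x - j (s x)) + (y - j (s y)) := by
        rw [map_add, map_add]
        ring
      rw [this]
      exact Ideal.add_mem _ hx hy
  simpa [hv] using key v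

/-- Translation of the variable is etale. -/
theorem seca_shift (t : R') : (eval₂RingHom (C : R' →+* R'[X]) (X - C t)).Etale := by
  refine RingHom.Etale.of_bijective (Function.bijective_iff_has_inverse.2
    ⟨eval₂RingHom (C : R' →+* R'[X]) (X + C t), fun p => ?_, fun p => ?_⟩)
  · have : (eval₂RingHom (C : R' →+* R'[X]) (X + C t)).comp (eval₂RingHom C (X - C t)) =
        RingHom.id _ := Polynomial.ringHom_ext (fun r => by simp) (by simp)
    exact RingHom.congr_fun this p
  · have : (eval₂RingHom (C : R' →+* R'[X]) (X - C t)).comp (eval₂RingHom C (X + C t)) =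
        RingHom.id _ := Polynomial.ringHom_ext (fun r => by simp) (by simp)
    exact RingHom.congr_fun this p

/-- After an etale base change there is a section through the point. -/
theorem exists_sec {h : R[X] →+* W} (hh : h.Etale) (y : W →+* L) (a : R)
    (hy : y (h X) = y (h (C a))) :
    ∃ (R' : Type) (_ : CommRing R') (W' : Type) (_ : CommRing W') (c : R →+* R') (b : W →+* W')
      (h' : R'[X] →+* W') (σ : W' →+* R') (x' : R' →+* L), c.Etale ∧
      PO (h.comp C) c b (h'.comp C) ∧ h'.Etale ∧ σ.comp h' = evalRingHom 0 ∧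
      (x'.comp σ).comp b = y := by
  obtain ⟨R', _, p, c, hR⟩ := exists_po h (evalRingHom a)
  have hc : c.Etale := hR.symm.etale hh
  have hp : ∀ q : R[X], p (h q) = c (q.eval a) := fun q => RingHom.congr_fun hR.comm q
  obtain ⟨W', _, b, j, hW⟩ := exists_po (h.comp C) c
  obtain ⟨σ, s1, s2⟩ := hW.ex R' p (RingHom.id R') (by
    ext r
    simp [hp])
  obtain ⟨x', x1, x2⟩ := hR.ex L y (y.comp (h.comp C)) (by
    refine Polynomial.ringHom_ext (fun r => ?_) ?_
    · simp
    · simpa using hy)
  have e : ((eval₂RingHom j (b (h X))).comp (eval₂RingHom C (X - C (c a)))).comp C = j := by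
    ext r
    simp
  refine ⟨R', inferInstance, W', inferInstance, c, b,
    (eval₂RingHom j (b (h X))).comp (eval₂RingHom C (X - C (c a))), σ, x', hc, ?_,
    etale_comp (seca_shift (c a)) (etale_bc hh hW), ?_, ?_⟩
  · rw [e]
    exact hW
  · have t1 : ∀ w, σ (b w) = p w := fun w => RingHom.congr_fun s1 w
    have t2 : ∀ r, σ (j r) = r := fun r => RingHom.congr_fun s2 r
    refine Polynomial.ringHom_ext (fun r => ?_) ?_
    · simp [t2]
    · simp [t1, t2, hp]
  · rw [RingHom.comp_assoc, s1, x1]

end

end Pool.Agent.Lib.MP_16ef92_ag.LC
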