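import Mathlib
import Pool.Agent.Lib.MP_16ef92_ag.LC.SecA
import Pool.Agent.Lib.MP_16ef92_ag.FA.PO

set_option autoImplicit false
set_option linter.unusedSectionVars false
set_option linter.unusedVariables false
set_option linter.style.haveILetI false

namespace Pool.Agent.Lib.MP_16ef92_ag.LC

open Polynomial FA

noncomputable section

variable {R R' W V K L : Type} [CommRing R] [CommRing R'] [CommRing W] [CommRing V] [CommRing K]
  [Field L]

/-- Closed points of algebras of finite type over an algebraically closed field. -/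
theorem closed_val {k : Type} [Field k] [IsAlgClosed k] {ι : k →+* W} (hι : ι.FiniteType)
    (y : W →+* L) (hy : (RingHom.ker y).IsMaximal) (w : W) : ∃ a : k, y w = y (ι a) := by
  algebraize [ι]
  letI := Ideal.Quotient.field (RingHom.ker y)
  haveI := finite_of_finite_type_of_isJacobsonRing k (W ⧸ RingHom.ker y)
  obtain ⟨a, ha⟩ := (IsAlgClosed.algebraMap_bijective_of_isIntegral (k := k)
    (K := W ⧸ RingHom.ker y)).2 (Ideal.Quotient.mk _ w)
  have h1 : w - ι a ∈ RingHom.ker y := Ideal.Quotient.eq.1 ha.symm
  rw [RingHom.mem_ker, map_sub, sub_eq_zero] at h1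
  exact ⟨a, h1⟩

theorem sec_idem (i : W →+* V) {e : V} (he : IsIdempotentElem e) (p : W[X]) :
    e * eval₂ i e p = e * i (p.eval 1) := by
  induction p using Polynomial.induction_on' with
  | add p q hp hq => rw [eval₂_add, eval_add, map_add, mul_add, mul_add, hp, hq]
  | monomial n a =>
    rw [eval₂_monomial, eval_monomial, one_pow, mul_one, mul_left_comm, ← pow_succ',
      he.pow_succ_eq, mul_comm]

theorem sec_eval (σ : W →+* R) {p : W[X]} (hp : p.Monic)
    (h : ∀ n ≠ p.natDegree, p.coeff n ∈ RingHom.ker σ) : σ (p.eval 1) = 1 := by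
  rw [eval_eq_sum_range, map_sum, Finset.sum_eq_single p.natDegree]
  · rw [one_pow, mul_one, coeff_natDegree, hp.leadingCoeff, map_one]
  · intro n _ hn
    rw [one_pow, mul_one]
    exact h n hn
  · intro hn
    exact absurd (Finset.self_mem_range_succ _) hn

theorem sec_smooth {h : R[X] →+* W} (hh : h.Etale) : (h.comp C).Smooth := by
  refine RingHom.Smooth.comp ?_ ((RingHom.etale_iff_formallyUnramified_and_smooth h).1 hh).2
  exact RingHom.smooth_algebraMap.2 (⟨inferInstance, inferInstance⟩ : Algebra.Smooth R R[X])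

/-- An idempotent of a fibre that is `1` on the section is `1` on the fibre of an open
neighbourhood of the section. -/
theorem c0 {h : R[X] →+* W} (hh : h.Etale) {σ : W →+* R} (hσ : σ.comp h = evalRingHom 0)
    {τ : R →+* K} {i : W →+* V} {j : K →+* V} (hP : PO (h.comp C) τ i j) {s : V →+* K}
    (hs : s.comp i = τ.comp σ) (hs' : s.comp j = RingHom.id K) {e : V} (he : IsIdempotentElem e)
    (h1 : s e = 1) : ∃ r : W, σ r = 1 ∧ i r * (1 - e) = 0 := by
  letI := (h.comp C).toAlgebra
  letI := τ.toAlgebra
  haveI : Algebra.Smooth R W := (sec_smooth hh).toAlgebra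
  have hσ' : σ.comp (algebraMap R W) = RingHom.id R := by
    change σ.comp (h.comp C) = _
    rw [← RingHom.comp_assoc, hσ]
    exact RingHom.ext fun r => eval_C
  obtain ⟨E, E1, E2⟩ := (po_tensor (R := R) (S := W) (R' := K)).equiv hP
  obtain ⟨e₀, rfl⟩ := E.surjective e
  have he₀ : IsIdempotentElem e₀ := E.injective ((map_mul E _ _).trans he)
  have hi : IsIntegral W e₀ := ⟨X ^ 2 - X, monic_X_pow_sub (degree_X_le.trans_lt (by norm_num)), by
    rw [eval₂_sub, eval₂_X_pow, eval₂_X, sq, he₀, sub_self]⟩
  obtain ⟨e', he'⟩ := (TensorProduct.toIntegralClosure_bijective_of_smooth (R := R) (S := W)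
    (B := K)).2 ⟨e₀, hi⟩
  let m : TensorProduct R W (integralClosure R K) →+* V := E.toRingHom.comp
    (Algebra.TensorProduct.map (AlgHom.id W W) (integralClosure R K).val).toRingHom
  have hm : m e' = E e₀ := congrArg E (congrArg Subtype.val he')
  have hB := po_tensor (R := R) (S := W) (R' := integralClosure R K)
  have m1 : m.comp (algebraMap W _) = i := by
    rw [← E1]
    exact RingHom.ext fun w => congrArg E
      ((Algebra.TensorProduct.map (AlgHom.id W W) (integralClosure R K).val).commutes w)
  have m2 : m.comp (Algebra.TensorProduct.includeRight (R := R) (A := W)).toRingHom =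
      j.comp (integralClosure R K).val.toRingHom := by
    rw [← E2]
    exact RingHom.ext fun b => rfl
  obtain ⟨t, t1, t2⟩ := hB.ex _ ((algebraMap R (integralClosure R K)).comp σ) (RingHom.id _) (by
    rw [RingHom.comp_assoc, hσ']; rfl)
  have ht : (integralClosure R K).val.toRingHom.comp t = s.comp m := by
    refine hB.uq _ _ _ ?_ ?_
    · rw [RingHom.comp_assoc, t1, RingHom.comp_assoc, m1, hs]; rfl
    · rw [RingHom.comp_assoc, t2, RingHom.comp_assoc, m2, ← RingHom.comp_assoc, hs']; rfl
  have h0 : t (1 - e') = 0 := by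
    apply Subtype.ext
    refine (RingHom.congr_fun ht (1 - e')).trans ?_
    rw [RingHom.comp_apply, map_sub, map_one, hm, map_sub, map_one, h1, sub_self]
    rfl
  obtain ⟨p, hp, hp0, hc⟩ := exists_monic_aeval_eq_zero_forall_mem_of_mem_map
    (ker_sec hσ' hB t1 t2 h0)
  refine ⟨p.eval 1, sec_eval σ hp hc, ?_⟩
  have h2 : eval₂ i (1 - E e₀) p = 0 := by
    have := congrArg m hp0
    rwa [aeval_def, hom_eval₂, m1, map_sub, map_one, hm, map_zero] at this
  rw [mul_comm, ← sec_idem i he.one_sub, h2, mul_zero]

end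

end Pool.Agent.Lib.MP_16ef92_ag.LC
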