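import Mathlib
import Pool.Agent.Lib.MP_16ef92_ag.LC.C1A
import Pool.Agent.Lib.MP_16ef92_ag.LC.Core
import Pool.Agent.Lib.MP_16ef92_ag.LC.Nf
import Pool.Agent.Lib.MP_16ef92_ag.LC.Root
import Pool.Agent.Lib.MP_16ef92_ag.LC.Sec

set_option autoImplicit false
set_option linter.unusedSectionVars false
set_option linter.unusedVariables false
set_option linter.style.haveILetI false

namespace Pool.Agent.Lib.MP_16ef92_ag.LC

open Polynomial FA TensorProduct

noncomputable section

theorem c1_noeth {A S : Type} [CommRing A] [CommRing S] [IsNoetherianRing A] {h : A[X] →+* S}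
    (hh : h.Etale) : IsNoetherianRing S := by
  algebraize [h]
  exact Algebra.FiniteType.isNoetherianRing A[X] S

theorem c1_flat {R W : Type} [CommRing R] [CommRing W] {h : R[X] →+* W} (hh : h.Etale) :
    (h.comp C).Flat := by
  have h1 : (C : R →+* R[X]).Flat := by
    have : (algebraMap R R[X]).Flat := RingHom.flat_algebraMap_iff.2 inferInstance
    exact this
  have h2 : h.Flat := by
    algebraize [h]
    exact (inferInstance : Module.Flat R[X] W)
  exact h1.comp h2

theorem c1_ne {S T : Type} [CommRing S] [CommRing T] [Nontrivial T] {φ : S →+* T} (hφ : φ.Flat)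
    {f : S} (hf : f ∈ nonZeroDivisors S) : φ f ≠ 0 := by
  algebraize [φ]
  have h1 : IsSMulRegular T f := Module.Flat.isSMulRegular_of_nonZeroDivisors hf
  intro h0
  have h2 : f • (1 : T) = f • (0 : T) := by
    rw [Algebra.smul_def, Algebra.smul_def, mul_one, mul_zero]
    exact h0
  exact one_ne_zero (h1 h2)

theorem c1_fin {Z : Type} [CommRing Z] {n : ℕ} (hn : n ≠ 0) {g F t u z v : Z} (hg : IsUnit g)
    (hv : IsUnit v) (h1 : v ^ n = t * u ^ (2 * n - 1)) (h2 : g ^ n * F * u = t * z ^ n) :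
    ∃ r : Z, r ^ n = F := by
  have hu : IsUnit u := by
    have a : IsUnit (u ^ (2 * n - 1)) := isUnit_of_mul_isUnit_right (h1 ▸ hv.pow n)
    exact (isUnit_pow_iff (by omega)).1 a
  obtain ⟨g', hg'⟩ := hg.exists_right_inv
  obtain ⟨u', hu'⟩ := hu.exists_right_inv
  refine ⟨g' * u' ^ 2 * v * z, ?_⟩
  have e1 : (g' * u' ^ 2 * v * z) ^ n = g' ^ n * u' ^ (2 * n) * (u ^ (2 * n - 1) * (t * z ^ n)) := by
    rw [mul_pow, mul_pow, mul_pow, h1, ← pow_mul]
    ring
  have e2 : u ^ (2 * n - 1) * u = u ^ (2 * n) := by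
    rw [← pow_succ]
    congr 1
    omega
  rw [e1, ← h2]
  calc g' ^ n * u' ^ (2 * n) * (u ^ (2 * n - 1) * (g ^ n * F * u))
      = (g * g') ^ n * (u ^ (2 * n - 1) * u * u' ^ (2 * n)) * F := by ring
    _ = F := by rw [e2, ← mul_pow, hg', hu', one_pow, one_pow, one_mul, one_mul]

/-- Local acyclicity in degree one, on the level of rings. -/
theorem c1 {k R W K V L : Type} [Field k] [PerfectField k] [CommRing R] [CommRing W] [Field K]
    [IsAlgClosed K] [CommRing V] [Field L] (p : ℕ) [Fact p.Prime] [CharP K p] {ι : k →+* R}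
    (hι : ι.FiniteType) {h : R[X] →+* W} (hh : h.Etale) {σ : W →+* R}
    (hσ : σ.comp h = evalRingHom 0) {τ : R →+* K}
    (halg : ∀ z : K, ∃ P : R[X], P.map τ ≠ 0 ∧ P.eval₂ τ z = 0) {i : W →+* V} {j : K →+* V}
    (hP : PO (h.comp C) τ i j) {n : ℕ} (hn : (n : K) ≠ 0) {f : V} (hf : f ∈ nonZeroDivisors V)
    {I : Ideal V} (hI : I ^ n = Ideal.span {f}) (x : R →+* L) :
    ∃ (W' : Type) (_ : CommRing W') (b : W →+* W') (y' : W' →+* L), b.Etale ∧
      y'.comp b = x.comp σ ∧
      ∀ (Z : Type) [CommRing Z] (e : V →+* Z) (d : W' →+* Z), e.comp i = d.comp b →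
        ∃ z : Z, z ^ n = e f := by
  letI : Algebra R W := (h.comp C).toAlgebra
  letI : Algebra R K := τ.toAlgebra
  letI : Algebra k R := ι.toAlgebra
  haveI : Algebra.FiniteType k R := hι
  haveI : Module.Flat R W := c1_flat hh
  haveI : IsNoetherianRing R := Algebra.FiniteType.isNoetherianRing k R
  have hn0 : n ≠ 0 := fun a => hn (by rw [a, Nat.cast_zero])
  have hnk : IsUnit (n : k) := by
    refine IsUnit.mk0 _ fun a => hn ?_
    rw [← map_natCast (τ.comp ι), a, map_zero]
  have hσ' : σ.comp (h.comp C) = RingHom.id R := by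
    rw [← RingHom.comp_assoc, hσ]
    ext r
    simp
  obtain ⟨e0, e1, e2⟩ := (po_tensor (R := R) (S := W) (R' := K)).equiv hP
  haveI : IsNoetherianRing V := c1_noeth (etale_bc hh hP)
  haveI : IsNoetherianRing (W ⊗[R] K) := isNoetherianRing_of_ringEquiv V e0.symm
  have hI0 : I.map e0.symm.toRingHom ^ n = Ideal.span {e0.symm f} := by
    rw [← Ideal.map_pow, hI, Ideal.map_span, Set.image_singleton]
    rfl
  obtain ⟨Z0, hZ0⟩ := desc_data hn0 (e0.symm f) (I.map e0.symm.toRingHom)
    (IsNoetherian.noetherian _) hI0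
  obtain ⟨A, hfin, hic, hA⟩ := exists_normal (k := k) (R := R) (K := K) p halg Z0
  obtain ⟨c, a, f', J, hc, ha, hf', h1, h2⟩ := hZ0 A hA
  haveI : IsNoetherianRing A := Algebra.FiniteType.isNoetherianRing R A
  have po : PO (h.comp C) (algebraMap R A) (algebraMap W (W ⊗[R] A))
      (Algebra.TensorProduct.includeRight (R := R) (A := W) (B := A)).toRingHom := po_tensor
  have hS := etale_bc hh po
  haveI : IsNoetherianRing (W ⊗[R] A) := c1_noeth hS
  obtain ⟨s, s1, s2⟩ := po.ex A ((algebraMap R A).comp σ) (RingHom.id A)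
    (by rw [RingHom.comp_assoc, hσ', RingHom.comp_id, RingHom.id_comp])
  have hX : σ (h X) = 0 := by
    have := RingHom.congr_fun hσ X
    simpa using this
  obtain ⟨φ, hφ, p1, p2⟩ := exists_phi hS (σ := s) (by
    refine Polynomial.ringHom_ext (fun r => ?_) ?_
    · rw [RingHom.comp_apply, coe_eval₂RingHom, eval₂_C, coe_evalRingHom, eval_C]
      exact RingHom.congr_fun s2 r
    · rw [RingHom.comp_apply, coe_eval₂RingHom, eval₂_X, coe_evalRingHom, eval_X]
      have := RingHom.congr_fun s1 (h X)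
      rw [RingHom.comp_apply, RingHom.comp_apply, hX, map_zero] at this
      exact this)
  have hj : φ.comp (Algebra.TensorProduct.includeRight (R := R) (A := W) (B := A)).toRingHom =
      PowerSeries.C := by
    ext1 r
    have := RingHom.congr_fun p1 (C r)
    rw [RingHom.comp_apply, coe_eval₂RingHom, eval₂_C] at this
    rw [RingHom.comp_apply, this]
    exact Polynomial.coe_C r
  let m : W ⊗[R] A →+* V :=
    e0.toRingHom.comp (Algebra.TensorProduct.map (AlgHom.id R W) A.val).toRingHom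
  have m1 : m.comp (algebraMap W (W ⊗[R] A)) = i := by
    rw [← e1]
    ext1 w
    simp [m, Algebra.TensorProduct.algebraMap_apply]
  have m2 : ∀ r : A, m (1 ⊗ₜ r) = j r := fun r => by
    rw [← e2]
    simp [m]
  have m3 : m f' = j c * f := by
    have : m f' = e0 ((1 ⊗ₜ (c : K)) * e0.symm f) := congrArg e0 hf'
    rw [this, map_mul, RingEquiv.apply_symm_apply, ← e2]
    rfl
  have m4 : Function.Injective m := e0.injective.comp
    (Module.Flat.lTensor_preserves_injective_linearMap (M := W) A.val.toLinearMap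
      Subtype.val_injective)
  have hcu : IsUnit (j c) := (IsUnit.mk0 (c : K) fun a => hc (Subtype.ext a)).map j
  have hf0 : f' ∈ nonZeroDivisors (W ⊗[R] A) := by
    refine mem_nonZeroDivisors_of_injective (f := m) m4 ?_
    rw [m3]
    exact mul_mem hcu.mem_nonZeroDivisors hf
  have hnA : IsUnit (n : A) := by
    rw [← map_natCast ((algebraMap R A).comp ι)]
    exact hnk.map _
  have hnW : IsUnit (n : W) := by
    rw [← map_natCast ((h.comp C).comp ι)]
    exact hnk.map _
  obtain ⟨c2, z, t, u, hc2, ht, hu, he⟩ := core (J := J) (a := a) hnA hj hφ (c1_ne hφ hf0) ha h1 h2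
  rw [p2] at ht hu
  have hw : t * u ^ (2 * n - 1) - 1 ∈ (RingHom.ker (x.comp σ)).map (algebraMap W (W ⊗[R] A)) := by
    refine Ideal.map_mono (fun r hr => ?_) (ker_sec hσ' po s1 s2 ?_)
    · rw [RingHom.mem_ker] at hr ⊢
      rw [RingHom.comp_apply, hr, map_zero]
    · rw [map_sub, map_mul, map_pow, ht, hu, one_pow, one_mul, map_one, sub_self]
  obtain ⟨W', _, b, y', hb, hy, hr⟩ := exists_root
    (po.isIntegral (algebraMap_isIntegral_iff.2 inferInstance)) (x.comp σ) hnW hw
  refine ⟨W', inferInstance, b, y', hb, hy, fun Z _ e d hed => ?_⟩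
  obtain ⟨v, hv, hvn⟩ := hr Z (e.comp m) d (by rw [RingHom.comp_assoc, m1, hed])
  obtain ⟨γ, hγ⟩ := IsAlgClosed.exists_pow_nat_eq ((c2 : K) * c) (Nat.pos_of_ne_zero hn0)
  have hγ0 : γ ≠ 0 := by
    rintro rfl
    rw [zero_pow hn0] at hγ
    exact mul_ne_zero (fun a => hc2 (Subtype.ext a)) (fun a => hc (Subtype.ext a)) hγ.symm
  refine c1_fin hn0 (g := e (j γ)) (t := e (m t)) (u := e (m u)) (z := e (m z))
    (((IsUnit.mk0 γ hγ0).map j).map e) hv ?_ ?_
  · rw [hvn, RingHom.comp_apply, map_mul, map_mul, map_pow, map_pow]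
  · have a1 := congrArg (fun r => e (m r)) he
    have a2 : m ((Algebra.TensorProduct.includeRight (R := R) (A := W) (B := A)).toRingHom c2) =
        j c2 := m2 c2
    simp only [map_mul, map_pow, a2, m3] at a1
    rw [← a1, ← map_pow, ← map_pow, hγ, map_mul, map_mul]
    ring

end

end Pool.Agent.Lib.MP_16ef92_ag.LC
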